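import Pool.Agent.Helper24.TF.StF

/-!
# Project TK (MP_6090f9_nt): the residue formula for quadratic twists of fibrations in K3 surfaces

THEOREM.  `k` a number field, `m ≥ 0`, `K = k(y_1..y_m)`, `n ≥ 2` even, `a_1, .., a_n ∈ 𝓞 k[y_1..y_m]` pairwise different.  For
`D ∈ 𝓞 k[y_1..y_m]`, `D ≠ 0`, let `X_D → A^m` be the family whose fibre over `y` is the minimal resolution of the double plane
`w² = D(y) ∏_i (a_i(y)² z - a_i(y) s + p)` branched along `n` tangent lines of the conic `s² = 4 p z`.  For `n = 6` the fibres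
are K3 surfaces: quadratic twists of the Kummer surface of the Jacobian of the curve `C_y : w² = ∏ (x - a_i(y))` of genus 2.
`BK D a v` is the average over the smooth fibres over the residue field at `v` of the trace of Frobenius on `H²`.  For every
finite set `S` of `D`'s, pairwise different modulo squares of `K`, and every `ε > 0`:
`∑_(D ∈ S) ((s-2) F_D(s) - (1 + n(n-1)/2))² ≤ B² + ε` for all `s > 2` close to `2`, `B = (8n+12)(8n+13)/2`.

METHOD.  A point `(s, p)` of the plane is an unordered pair `{u, u'}` of roots of `x² - s x + p`, so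
`∏ (a_i² - a_i s + p) = h(u) h(u')`, `h = ∏ (x - a_i)`, and the number of points of the double plane is
`q² + q + 1 + χ(D) (a_1² - a_2)/2`, where `a_1`, `a_2` are the traces of `C_y` over the residue field and over its quadratic
extension (`Λ² H¹(C_y)` twisted by `D`).  Both traces are bounded by Stepanov's method.  Then Bessel's inequality, as in
`Pool/Agent/Helper95/TT/St.lean` and `Pool/Agent/Helper24/TF/StF.lean`, whose notation is used.

Every docstring is a complete proof; `StKn` is proved as `theorem hKn : StKn` (hypotheses = earlier statements, as listed).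
-/

set_option autoImplicit false

namespace Pool.Agent.Helper47.TK

open NumberField IsDedekindDomain Polynomial Filter Topology
open Pool.Agent.Helper95.TT Pool.Agent.Helper24.TF
open scoped Classical

noncomputable section

/-- quadratic character of a finite field -/
def qc {K : Type} [CommRing K] (x : K) : ℝ := if x = 0 then 0 else if IsSquare x then 1 else -1

/-- number of points over the finite field `K` of the double plane `w² = d ∏_i (α_i² z - α_i s + p)` in the weighted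
projective space with the coordinates `s, p, z` of weight `1` and `w` of weight `n/2` (`n` even): the points with `z = 1`,
the points with `z = 0`, `s = 1` (`p` is the first coordinate), the points with `z = s = 0`, `p = 1` -/
def ptsD {K : Type} [CommRing K] {n : ℕ} (d : K) (α : Fin n → K) : ℕ :=
  Nat.card {z : K × K × K // z.2.2 ^ 2 = d * ∏ i, (α i ^ 2 - α i * z.1 + z.2.1)} +
  Nat.card {z : K × K // z.2 ^ 2 = d * ∏ i, (z.1 - α i)} +
  Nat.card {z : K // z ^ 2 = d}

variable {k : Type} [Field k] [NumberField k] {m n : ℕ}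

/-- number of points over the residue field at `v` of the minimal resolution of this double plane: each of its
`n(n-1)/2` singular points (nodes, over the points where two of the lines meet) is replaced by a smooth conic with `q + 1`
points -/
def ptsK (v : Pr k) (d : Kv v) (α : Fin n → Kv v) : ℕ := ptsD d α + n.choose 2 * q v

/-- the fibre over `y` is good: `D(y) ≠ 0` and the `n` lines are different -/
def GoodK (D : Py k m) (a : Fin n → Py k m) (v : Pr k) (y : Fin m → Kv v) : Prop :=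
  val v y D ≠ 0 ∧ Function.Injective (fun i => val v y (a i))

/-- `q_v^(-m)` times the sum over the good fibres of `X_D` over the residue field at `v` of the trace of Frobenius on `H²`
(the fibres are simply connected surfaces, so the trace is the number of points minus `1 + q²`) -/
def BK (D : Py k m) (a : Fin n → Py k m) (v : Pr k) : ℝ :=
  (∑ᶠ y : Fin m → Kv v, if GoodK D a v y then
    ((ptsK v (val v y D) (fun i => val v y (a i)) : ℝ) - 1 - (q v : ℝ) ^ 2) else 0) / (q v : ℝ) ^ m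

/-- **K1** (unordered pairs of points of the line).
PROOF.  Fix `(s, p)`, `δ = s² - 4p`.  The number of `(u, w)` with `u + w = s`, `u w = p` is the number of `u` with
`u² - s u + p = 0`, i.e. of `x = 2u - s` with `x² = δ`.  The number of `(a, b)` with `2a = s`, `a² - ν b² = p` is the number of `b`
with `4 ν b² = δ`, i.e. of `x = 2 ν b` with `x² = ν δ`.  The numbers of square roots of `δ` and of `ν δ` add up to `2`
(`δ = 0`: `1 + 1`; otherwise exactly one of `δ`, `ν δ` is a nonzero square, `quadraticChar_card_sqrts`). -/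
def StK1 : Prop := ∀ (K : Type) [Field K] [Fintype K] (ν : K), (2 : K) ≠ 0 → ¬ IsSquare ν → ∀ g : K → K → ℝ,
  2 * ∑ s : K, ∑ p : K, g s p =
    (∑ u : K, ∑ w : K, g (u + w) (u * w)) + ∑ a : K, ∑ b : K, g (2 * a) (a ^ 2 - ν * b ^ 2)

/-- **K2** (Weil bound over the quadratic extension, from `Pool.Agent.Helper54.PT.card_Sa_le` in
`Pool/Agent/Helper37/TW/S5.lean`; compare `Pool/Agent/Helper98/TT/M_A6.lean`).
PROOF.  `L = K[θ]`, `θ² = ν` (`AdjoinRoot (X^2 - C ν)`, irreducible as `ν` is not a square), a field with `Q = q²` elements,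
`q = card K = 2c + 1`; its elements are `z = a + bθ` with unique `a, b ∈ K`.  `θ^q = ν^c θ = -θ` (`ν^c = -1`,
`FiniteField.isSquare_iff`, `FiniteField.pow_dichotomy`), so `z^q = a - bθ` (`FiniteField.pow_card`, characteristic `p`) and
`z^(q+1) = a² - ν b²`.  Let `h = ∏ (X - C α_i)` over `L`, squarefree of degree `n`, `c' = (Q - 1)/2 = c (q + 1)`.  Then
`h(z)^c' = (∏ (z - α_i)^(q+1))^c = (∏ ((a - α_i)² - ν b²))^c`, which is the image of `qc` of the product (`0`, `1` or `-1`, Euler).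
So the sum is `|S_1| - |S_(-1)|`, `S_ε = {z ∈ L : h(z)^c' = ε}`.  If `Q ≥ 4(n+3)²`: `|S_1|, |S_(-1)| ≤ Q/2 + (4n+5)q`, `|S_0| ≤ n`
and the three add up to `Q`, so `| |S_1| - |S_(-1)| | ≤ (8n+10) q + n ≤ (8n+11) q`.  Otherwise `q < 2(n+3)` and the sum is
at most `Q = q q ≤ (2n+6) q ≤ (8n+11) q`. -/
def StK2 : Prop := ∀ (K : Type) [Field K] [Fintype K] (ν : K), (2 : K) ≠ 0 → ¬ IsSquare ν →
  ∀ (n : ℕ) (α : Fin n → K), 1 ≤ n → Function.Injective α →
  |∑ a : K, ∑ b : K, qc (∏ i, ((a - α i) ^ 2 - ν * b ^ 2))| ≤ (8 * n + 11) * (Fintype.card K : ℝ)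

/-- **K3** (number of points of the double plane).  Hypotheses: StK1 StK2.
PROOF.  `q = card K`.  `qc` is multiplicative (the quadratic character) and for `c ∈ K` there are `1 + qc c` solutions of
`w² = c`.  Let `A = ∑_x qc (∏ (x - α_i))`, and let `A' ` be the sum in K2 for a nonsquare `ν` (it exists, `q` is odd:
`FiniteField.exists_nonsquare`).  K1 for `g s p = qc (∏ (α_i² - α_i s + p))`: `α_i² - α_i (u + w) + u w = (u - α_i)(w - α_i)` and
`α_i² - 2 α_i a + a² - ν b² = (a - α_i)² - ν b²`, so `2 ∑_(s,p) g s p = A² + A'`.  The three numbers in `ptsD` are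
`q² + qc d (A² + A')/2`, `q + qc d A`, `1 + qc d`.  So `l = (A² + A')/2 + A + 1 = ((A+1)² + (A'+1))/2` (independent of `d`),
`|l| ≤ ((8n+12)² q + (8n+11) q + 1)/2 ≤ (8n+12)(8n+13) q/2`. -/
def StK3 : Prop := ∀ (K : Type) [Field K] [Fintype K], (2 : K) ≠ 0 → ∀ (n : ℕ) (α : Fin n → K), 1 ≤ n →
  Function.Injective α → |∑ x : K, qc (∏ i, (x - α i)) + 1| ≤ (8 * n + 12) * √(Fintype.card K : ℝ) →
  ∃ l : ℝ, |l| ≤ (8 * n + 12) * (8 * n + 13) / 2 * (Fintype.card K : ℝ) ∧ ∀ d : K, d ≠ 0 →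
    (ptsD d α : ℝ) = (Fintype.card K : ℝ) ^ 2 + (Fintype.card K : ℝ) + 1 + qc d * l

/-- **K4** (the trace on `H²` of a fibre).  Hypotheses: StF3 StK3.
PROOF.  `κ = Kv v` is a finite field with `q v` elements (`Ideal.Quotient.field`, `Ideal.absNorm`, `Submodule.cardQuot`), `2 ≠ 0`
in it.  `h = ∏ (X - C α_i)` is monic, squarefree, of even degree `n`, so `ptsF v h = ∑_x (1 + chF v (h x)) + 2` (`1 = z²` has two
solutions) and `trF v h = - ∑_x chF v (h x) - 1`; F3 (iii) gives the hypothesis of K3.  `chF v = qc`. -/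
def StK4 : Prop := ∀ (k : Type) [Field k] [NumberField k] (v : Pr k), (2 : 𝓞 k) ∉ v.asIdeal →
  ∀ (n : ℕ) (α : Fin n → Kv v), Even n → 1 ≤ n → Function.Injective α →
  ∃ l : ℝ, |l| ≤ (8 * n + 12) * (8 * n + 13) / 2 * q v ∧ ∀ d : Kv v, d ≠ 0 →
    (ptsK v d α : ℝ) - 1 - (q v : ℝ) ^ 2 = (1 + n.choose 2) * q v + chF v d * l

/-- **K5** (Bessel's inequality for twists).  Hypotheses: StA2 StA7 StA8 StF1 StF3 StF6.
PROOF.  A8 for `V = Σ v, (Fin m → Kv v)`, `w s (v,y) = (s-1) wt s v / q^m`, `c (v,y)`, `χ_i (v,y) = chF v (D_i(y))` if `2 ∉ v`, `1`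
otherwise.  `∑ w → 1` (A2); `∑ w χ_i χ_j = (s-1) ∑_v wt s v av(D_i D_j) + O(s-1) → 0` for `i ≠ j` (F3 (i), F6; the primes above
`2` are finitely many, A7), `∑ w χ_i² = ∑ w - O(s-1)` (F1 for `D_i`: the points with `D_i(y) = 0` have total weight
`≤ (s-1) ∑ wt s v C/q ≤ C (s-1) ∑ wt 2 v`).  The primes above `2` contribute `O(s-1)` to the sums in the conclusion. -/
def StK5 : Prop := ∀ (k : Type) [Field k] [NumberField k] (m : ℕ) (c : (v : Pr k) → (Fin m → Kv v) → ℝ)
  (B : ℝ), (∀ v y, |c v y| ≤ B) → ∀ (ι : Type) [Fintype ι] (D : ι → Py k m), (∀ i, D i ≠ 0) →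
  (∀ i j, i ≠ j → ¬ IsSquare (algebraMap (Py k m) (Ky k m) (D i * D j))) →
  ∀ ε > 0, ∀ᶠ s : ℝ in 𝓝[>] 1,
    ∑ i, ((s - 1) * ∑' v : Pr k, (∑ᶠ y : Fin m → Kv v, c v y * chF v (val v y (D i))) / (q v : ℝ) ^ m * wt s v) ^ 2
      ≤ B ^ 2 + ε

/-- **K6** (analytic part, `StF7` with a general constant; copy of its proof).  Hypotheses: StA2. -/
def StK6 : Prop := ∀ (k : Type) [Field k] [NumberField k] (ι : Type) [Fintype ι] (μ : ι → Pr k → ℝ)
  (r B : ℝ), (∀ i v, |μ i v| ≤ B) →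
  (∀ ε > 0, ∀ᶠ s : ℝ in 𝓝[>] 1, ∑ i, ((s - 1) * ∑' v : Pr k, μ i v * wt s v) ^ 2 ≤ B ^ 2 + ε) →
  ∀ (C : ℝ) (R : Set (Pr k)) (b : ι → Pr k → ℝ), R.Finite →
  (∀ i, ∀ v, v ∉ R → |b i v - (r * q v + μ i v * q v)| ≤ C) →
  (∀ i, ∀ s : ℝ, 2 < s → Summable (fun v : Pr k => b i v * Real.log (q v) * (q v : ℝ) ^ (-s))) ∧
  ∀ ε > 0, ∀ᶠ s : ℝ in 𝓝[>] 2,
    ∑ i, ((s - 2) * (∑' v : Pr k, b i v * Real.log (q v) * (q v : ℝ) ^ (-s)) - r) ^ 2 ≤ B ^ 2 + ε

/-- abstract form of K4: the trace on the twisted part of `H²` is at most `W n * q` (K4 is the case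
`W n = (8n+12)(8n+13)/2`; with the exact Weil bound `W n = g(2g-1)`, `n = 2g+2`) -/
def BdK (W : ℕ → ℝ) : Prop := ∀ (k : Type) [Field k] [NumberField k] (v : Pr k), (2 : 𝓞 k) ∉ v.asIdeal →
  ∀ (n : ℕ) (α : Fin n → Kv v), Even n → 1 ≤ n → Function.Injective α →
  ∃ l : ℝ, |l| ≤ W n * q v ∧ ∀ d : Kv v, d ≠ 0 →
    (ptsK v d α : ℝ) - 1 - (q v : ℝ) ^ 2 = (1 + n.choose 2) * q v + chF v d * l

/-- **K7W** (the form of K7 to be proved: K7 with an abstract constant `W`).  Hypotheses and proof: see K7, with `BdK W` in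
place of K4.  Then `StK7` is the case `W n = (8n+12)(8n+13)/2`. -/
def StK7W : Prop := ∀ (W : ℕ → ℝ), BdK W →
  ∀ (k : Type) [Field k] [NumberField k] (m n : ℕ) (a : Fin n → Py k m), Even n → 1 ≤ n →
  Function.Injective a → ∀ (ι : Type) [Fintype ι] (D : ι → Py k m), (∀ i, D i ≠ 0) →
  (∀ i j, i ≠ j → ¬ IsSquare (algebraMap (Py k m) (Ky k m) (D i * D j))) →
  ∀ (C : ℝ) (R : Set (Pr k)) (b : ι → Pr k → ℝ), R.Finite →
  (∀ i, ∀ v, v ∉ R → |b i v - BK (D i) a v| ≤ C) →
  (∀ i, ∀ s : ℝ, 2 < s → Summable (fun v : Pr k => b i v * Real.log (q v) * (q v : ℝ) ^ (-s))) ∧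
  ∀ ε > 0, ∀ᶠ s : ℝ in 𝓝[>] 2,
    ∑ i, ((s - 2) * (∑' v : Pr k, b i v * Real.log (q v) * (q v : ℝ) ^ (-s)) - (1 + n.choose 2)) ^ 2 ≤
      W n ^ 2 + ε

/-- **K7** (main theorem).  `b i v` is any number which differs from the average `BK` over the good fibres by a bounded
amount (all terms coming from singular fibres and from points at infinity of the base are of this kind), for `v` outside a
finite set.  Hypotheses: StA7 StF1 StK4 StK5 StK6.
PROOF.  For `2 ∉ v` and `α = a(y)` injective let `l v y` be from K4, `c v y = l v y / q`, otherwise `c v y = 0`; `|c| ≤ B`.  K5 gives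
the hypothesis of K6 for `μ_i v = (∑_y c v y chF v (D_i(y)))/q^m`, `|μ_i v| ≤ B`.  For `2 ∉ v`: `BK D_i a v = (1 + n(n-1)/2) q G_i + q μ_i v`
up to the points `y` with `D_i(y) = 0` (where `chF = 0`), `G_i = #(good y)/q^m`.  `1 - G_i ≤ C/q` by F1 for
`P = D_i ∏_(i<j) (a_i - a_j) ≠ 0` (`val v y` is a ring homomorphism; if `P(y) ≠ 0` then `y` is good). -/
def StK7 : Prop := ∀ (k : Type) [Field k] [NumberField k] (m n : ℕ) (a : Fin n → Py k m), Even n → 1 ≤ n →
  Function.Injective a → ∀ (ι : Type) [Fintype ι] (D : ι → Py k m), (∀ i, D i ≠ 0) →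
  (∀ i j, i ≠ j → ¬ IsSquare (algebraMap (Py k m) (Ky k m) (D i * D j))) →
  ∀ (C : ℝ) (R : Set (Pr k)) (b : ι → Pr k → ℝ), R.Finite →
  (∀ i, ∀ v, v ∉ R → |b i v - BK (D i) a v| ≤ C) →
  (∀ i, ∀ s : ℝ, 2 < s → Summable (fun v : Pr k => b i v * Real.log (q v) * (q v : ℝ) ^ (-s))) ∧
  ∀ ε > 0, ∀ᶠ s : ℝ in 𝓝[>] 2,
    ∑ i, ((s - 2) * (∑' v : Pr k, b i v * Real.log (q v) * (q v : ℝ) ^ (-s)) - (1 + n.choose 2)) ^ 2 ≤
      ((8 * n + 12) * (8 * n + 13) / 2 : ℝ) ^ 2 + ε

end

end Pool.Agent.Helper47.TK
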