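import Pool.Agent.Helper47.TK.M_Main
import Pool.Agent.Helper80.TT.M_A1
import Pool.Agent.Helper84.TT.M_A2
import Pool.Agent.Helper19.TT.M_A3
import Pool.Agent.Helper85.TT.M_A4
import Pool.Agent.Helper92.TT.M_A5
import Pool.Agent.Helper98.TT.M_A6
import Pool.Agent.Helper94.TT.M_A7
import Pool.Agent.Helper15.TT.M_A8
import Pool.Agent.Helper31.TF.M_F1
import Pool.Agent.Helper43.TF.M_F2
import Pool.Agent.Helper15.TF.M_F3
import Pool.Agent.Helper31.TF.M_F4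
import Pool.Agent.Helper6.TF.M_F5
import Pool.Agent.Helper31.TF.M_F6
import Pool.Agent.Helper86.WS.M_W1
import Pool.Agent.Helper42.WS.M_W2
import Pool.Agent.Helper24.WS.M_W3
import Pool.Agent.Helper24.WS.M_W4
import Pool.Agent.Helper6.WS.M_W5
import Pool.Agent.Helper42.WS.M_W6
import Pool.Agent.Helper83.WS.M_W7
import Pool.Agent.Helper42.WS.M_W8
import Pool.Agent.Helper24.WS.M_W9
import Pool.Agent.Helper24.WS.M_W10
import Pool.Agent.Helper95.WS.M_W12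

/-!
# Projects TK and TS: all modules together
-/

set_option autoImplicit false

namespace Pool.Agent.Helper47.TK

open Pool.Agent.Helper95.TT Pool.Agent.Helper24.TF Pool.Agent.Helper95.WS

theorem pA2 : StA2 := Pool.Agent.Helper84.TT.hA2 Pool.Agent.Helper80.TT.hA1
theorem pA4 : StA4 := Pool.Agent.Helper85.TT.hA4 pA2 Pool.Agent.Helper19.TT.hA3
theorem pA7 : StA7 := Pool.Agent.Helper94.TT.hA7
theorem pF1 : StF1 := Pool.Agent.Helper31.TF.hF1 pA7
theorem pF3 : StF3 := Pool.Agent.Helper15.TF.hF3 Pool.Agent.Helper92.TT.hA5 Pool.Agent.Helper98.TT.hA6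
theorem pF5 : StF5 :=
  Pool.Agent.Helper6.TF.hF5 pA7 pF1 Pool.Agent.Helper43.TF.hF2 pF3 Pool.Agent.Helper31.TF.hF4
theorem pF6 : StF6 := Pool.Agent.Helper31.TF.hF6 pA2 pA4 pF3 pF5
theorem pK5 : StK5 := hK5 pA2 pA7 Pool.Agent.Helper15.TT.hA8 pF1 pF3 pF6
theorem pK6 : StK6 := hK6 pA2
theorem pW12 : StW12 :=
  Pool.Agent.Helper95.WS.hW12 Pool.Agent.Helper86.WS.hW1
    (Pool.Agent.Helper6.WS.hW5 Pool.Agent.Helper86.WS.hW1
      (Pool.Agent.Helper24.WS.hW4 (Pool.Agent.Helper24.WS.hW3 Pool.Agent.Helper42.WS.hW2)))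
    (Pool.Agent.Helper42.WS.hW6 Pool.Agent.Helper86.WS.hW1)
    (Pool.Agent.Helper83.WS.hW7 Pool.Agent.Helper86.WS.hW1 Pool.Agent.Helper42.WS.hW2)
    Pool.Agent.Helper42.WS.hW8 Pool.Agent.Helper24.WS.hW9 Pool.Agent.Helper24.WS.hW10
    Pool.Agent.Helper95.WS.hW10b

end Pool.Agent.Helper47.TK
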