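import Pool.Agent.Helper47.TK.M_Fin

/-!
# Projects TK and TS: corollaries for residues
-/

set_option autoImplicit false

namespace Pool.Agent.Helper47.TK

open NumberField IsDedekindDomain Polynomial Filter Topology
open Pool.Agent.Helper95.TT Pool.Agent.Helper24.TF
open scoped Classical

noncomputable section

/-- if the limits exist, they satisfy the inequality -/
theorem cor_limit {ι : Type} [Fintype ι] (G : ι → ℝ → ℝ) (r W : ℝ)
    (h : ∀ ε > 0, ∀ᶠ s : ℝ in 𝓝[>] 2, ∑ i, (G i s - r) ^ 2 ≤ W ^ 2 + ε) (ρ : ι → ℝ)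
    (hρ : ∀ i, Tendsto (G i) (𝓝[>] 2) (𝓝 (ρ i))) : ∑ i, (ρ i - r) ^ 2 ≤ W ^ 2 := by
  refine le_of_forall_pos_le_add fun ε hε => ?_
  have h1 : Tendsto (fun s => ∑ i, (G i s - r) ^ 2) (𝓝[>] 2) (𝓝 (∑ i, (ρ i - r) ^ 2)) :=
    tendsto_finsetSum _ fun i _ => ((hρ i).sub_const r).pow 2
  exact le_of_tendsto h1 (h ε hε)

/-- integral limits: few of them are different from `r` -/
theorem cor_int {ι : Type} [Fintype ι] (n : ι → ℤ) (r : ℤ) (W : ℝ)
    (h : ∑ i, ((n i : ℝ) - r) ^ 2 ≤ W ^ 2) :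
    ((Finset.univ.filter fun i => n i ≠ r).card : ℝ) ≤ W ^ 2 := by
  refine le_trans ?_ h
  rw [Finset.card_filter]
  push_cast
  refine Finset.sum_le_sum fun i _ => ?_
  split_ifs with h1
  · have h2 : (1 : ℤ) ≤ (n i - r) ^ 2 := by
      have h3 : n i - r ≠ 0 := sub_ne_zero.2 h1
      have h4 : 0 < (n i - r) ^ 2 := by positivity
      omega
    exact_mod_cast h2
  · positivity

/-- finitely many terms with large deviation -/
theorem cor_few {ι : Type} [Fintype ι] (x : ι → ℝ) (r W ε : ℝ) (hε : 0 < ε)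
    (h : ∑ i, (x i - r) ^ 2 ≤ W ^ 2) :
    ((Finset.univ.filter fun i => ε ≤ |x i - r|).card : ℝ) ≤ W ^ 2 / ε ^ 2 := by
  rw [le_div_iff₀ (by positivity)]
  refine le_trans ?_ h
  rw [Finset.card_filter]
  push_cast
  rw [Finset.sum_mul]
  refine Finset.sum_le_sum fun i _ => ?_
  split_ifs with h1
  · rw [one_mul, ← sq_abs (x i - r)]
    exact pow_le_pow_left₀ hε.le h1 2
  · rw [zero_mul]
    positivity

/-- consequence for upper limits: the number of `i` with `limsup |G i - r| > δ` -/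
theorem cor_far {ι : Type} [Fintype ι] (G : ι → ℝ → ℝ) (r W : ℝ)
    (h : ∀ ε > 0, ∀ᶠ s : ℝ in 𝓝[>] 2, ∑ i, (G i s - r) ^ 2 ≤ W ^ 2 + ε) (δ : ℝ) (hδ : 0 < δ) :
    ∀ ε > 0, ∀ᶠ s : ℝ in 𝓝[>] 2,
      ((Finset.univ.filter fun i => δ ≤ |G i s - r|).card : ℝ) ≤ W ^ 2 / δ ^ 2 + ε := by
  intro ε hε
  filter_upwards [h (ε * δ ^ 2) (by positivity)] with s hs
  have h2 : W ^ 2 / δ ^ 2 + ε = (W ^ 2 + ε * δ ^ 2) / δ ^ 2 := by
    field_simp
  rw [h2, le_div_iff₀ (by positivity)]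
  refine le_trans ?_ hs
  rw [Finset.card_filter]
  push_cast
  rw [Finset.sum_mul]
  refine Finset.sum_le_sum fun i _ => ?_
  split_ifs with h1
  · rw [one_mul, ← sq_abs (G i s - r)]
    exact pow_le_pow_left₀ hδ.le h1 2
  · rw [zero_mul]
    positivity

end

end Pool.Agent.Helper47.TK
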