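import Pool.Agent.Helper99.TK.M_K4
import Pool.Agent.Helper95.WS.St2

/-!
# Project TK: the sharp bounds for the traces on `Λ² H¹` and `Sym² H¹` (from the Frobenius eigenvalues, `StW12`)
-/

set_option autoImplicit false

namespace Pool.Agent.Helper47.TK

open Pool.Agent.Helper95.TT Pool.Agent.Helper24.TF Pool.Agent.Helper95.WS
open Polynomial Finset

/-- second elementary symmetric function, bound -/
theorem e2_bound (ρ : ℝ) (hρ : 0 ≤ ρ) (s : Multiset ℂ) (hs : ∀ ω ∈ s, ‖ω‖ ≤ ρ) :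
    ‖s.sum‖ ≤ Multiset.card s * ρ ∧
    ‖(s.sum ^ 2 - (s.map (fun ω => ω ^ 2)).sum) / 2‖ ≤
      ((Multiset.card s : ℝ) * ((Multiset.card s : ℝ) - 1) / 2) * ρ ^ 2 ∧
    ‖(s.sum ^ 2 + (s.map (fun ω => ω ^ 2)).sum) / 2‖ ≤
      ((Multiset.card s : ℝ) * ((Multiset.card s : ℝ) + 1) / 2) * ρ ^ 2 := by
  induction s using Multiset.induction_on with
  | empty => simp
  | cons a s ih =>
    have ha : ‖a‖ ≤ ρ := hs a (Multiset.mem_cons_self a s)
    obtain ⟨h1, h2, h3⟩ := ih fun ω hω => hs ω (Multiset.mem_cons_of_mem hω)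
    have hN : (0 : ℝ) ≤ Multiset.card s := Nat.cast_nonneg _
    have hc : ((Multiset.card (a ::ₘ s) : ℕ) : ℝ) = Multiset.card s + 1 := by
      rw [Multiset.card_cons]
      push_cast
      rfl
    rw [hc]
    simp only [Multiset.sum_cons, Multiset.map_cons]
    have has : ‖a * s.sum‖ ≤ Multiset.card s * ρ ^ 2 := by
      rw [norm_mul]
      calc ‖a‖ * ‖s.sum‖ ≤ ρ * (Multiset.card s * ρ) :=
            mul_le_mul ha h1 (norm_nonneg _) hρ
        _ = _ := by ring
    have haa : ‖a ^ 2‖ ≤ ρ ^ 2 := by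
      rw [norm_pow]
      exact pow_le_pow_left₀ (norm_nonneg _) ha 2
    refine ⟨?_, ?_, ?_⟩
    · calc ‖a + s.sum‖ ≤ ‖a‖ + ‖s.sum‖ := norm_add_le _ _
        _ ≤ ρ + Multiset.card s * ρ := add_le_add ha h1
        _ = _ := by ring
    · have e1 : ((a + s.sum) ^ 2 - (a ^ 2 + (s.map (fun ω => ω ^ 2)).sum)) / 2 =
          (s.sum ^ 2 - (s.map (fun ω => ω ^ 2)).sum) / 2 + a * s.sum := by ring
      rw [e1]
      calc _ ≤ ‖(s.sum ^ 2 - (s.map (fun ω => ω ^ 2)).sum) / 2‖ + ‖a * s.sum‖ := norm_add_le _ _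
        _ ≤ _ := add_le_add h2 has
        _ = _ := by ring
    · have e1 : ((a + s.sum) ^ 2 + (a ^ 2 + (s.map (fun ω => ω ^ 2)).sum)) / 2 =
          (s.sum ^ 2 + (s.map (fun ω => ω ^ 2)).sum) / 2 + a * s.sum + a ^ 2 := by ring
      rw [e1]
      calc _ ≤ ‖(s.sum ^ 2 + (s.map (fun ω => ω ^ 2)).sum) / 2‖ + ‖a * s.sum‖ + ‖a ^ 2‖ :=
            (norm_add_le _ _).trans (add_le_add (norm_add_le _ _) le_rfl)
        _ ≤ _ := add_le_add (add_le_add h3 has) haa
        _ = _ := by ring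

theorem char_ne_two {K : Type} [Field K] (h2 : (2 : K) ≠ 0) : ringChar K ≠ 2 := by
  intro h
  apply h2
  have h3 : ((2 : ℕ) : K) = 0 := by rw [ringChar.spec, h]
  exact_mod_cast h3

section ext

variable {K : Type} [Field K] [Fintype K] {ν : K} [Fact (∀ r : K, r ^ 2 ≠ ν + 0 * r)]

theorem frob_sh (h2 : (2 : K) ≠ 0) (hν : ¬ IsSquare ν) {c : ℕ}
    (hc : Fintype.card K = 2 * c + 1) (z : QuadraticAlgebra K ν 0) :
    z ^ (Fintype.card K + 1) = algebraMap K (QuadraticAlgebra K ν 0) (z.re ^ 2 - ν * z.im ^ 2) := by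
  have hν0 : ν ≠ 0 := by
    rintro rfl
    exact hν ⟨0, by simp⟩
  have hνc : ν ^ c = -1 := by
    have h1 := FiniteField.isSquare_iff (char_ne_two h2) hν0
    have h3 := FiniteField.pow_dichotomy (char_ne_two h2) hν0
    rw [show Fintype.card K / 2 = c by omega] at h1 h3
    rcases h3 with h | h
    · exact absurd (h1.2 h) hν
    · exact h
  set w : QuadraticAlgebra K ν 0 := ⟨0, 1⟩ with hw
  have hw2 : w ^ 2 = algebraMap K (QuadraticAlgebra K ν 0) ν := by
    rw [sq, hw]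
    ext <;> simp
  have hwq : w ^ Fintype.card K = -w := by
    rw [hc, pow_succ, pow_mul, hw2, ← map_pow, hνc, map_neg, map_one]
    ring
  have hz : z = algebraMap K (QuadraticAlgebra K ν 0) z.re +
      algebraMap K (QuadraticAlgebra K ν 0) z.im * w := by
    rw [hw]
    ext <;> simp
  have hφ : z ^ Fintype.card K = algebraMap K (QuadraticAlgebra K ν 0) z.re -
      algebraMap K (QuadraticAlgebra K ν 0) z.im * w := by
    have h1 : FiniteField.frobeniusAlgHom K (QuadraticAlgebra K ν 0) z = z ^ Fintype.card K := rfl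
    have h3 : FiniteField.frobeniusAlgHom K (QuadraticAlgebra K ν 0) w = -w := hwq
    rw [← h1]
    conv_lhs => rw [hz]
    rw [map_add, map_mul, AlgHom.commutes, AlgHom.commutes, h3]
    ring
  rw [pow_succ, hφ]
  conv_lhs =>
    rhs
    rw [hz]
  have : (algebraMap K (QuadraticAlgebra K ν 0) z.re - algebraMap K (QuadraticAlgebra K ν 0) z.im * w) *
      (algebraMap K (QuadraticAlgebra K ν 0) z.re + algebraMap K (QuadraticAlgebra K ν 0) z.im * w) =
      algebraMap K (QuadraticAlgebra K ν 0) z.re ^ 2 -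
        algebraMap K (QuadraticAlgebra K ν 0) z.im ^ 2 * w ^ 2 := by ring
  rw [this, hw2, ← map_pow, ← map_pow, ← map_mul, ← map_sub]
  congr 1
  ring

end ext

open scoped Classical in
theorem qchar_ext {K L : Type} [Field K] [Fintype K] [Field L] [Fintype L] [Algebra K L]
    (h2 : (2 : K) ≠ 0) (hcard : Fintype.card L = Fintype.card K ^ 2) (y : L) (P : K)
    (hy : y ^ (Fintype.card K + 1) = algebraMap K L P) :
    (quadraticChar L y : ℤ) = quadraticChar K P := by
  have hodd := FiniteField.odd_card_of_char_ne_two (char_ne_two h2)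
  obtain ⟨c, hc⟩ : ∃ c, Fintype.card K = 2 * c + 1 := ⟨Fintype.card K / 2, by omega⟩
  have h2L : (2 : L) ≠ 0 := by
    intro h
    apply h2
    have h3 : algebraMap K L 2 = algebraMap K L 0 := by
      rw [map_zero, map_ofNat, h]
    exact (algebraMap K L).injective h3
  have hcL : Fintype.card L / 2 = (Fintype.card K + 1) * c := by
    rw [hcard, hc]
    have : (2 * c + 1) ^ 2 = 2 * ((2 * c + 1 + 1) * c) + 1 := by ring
    omega
  have h5 := quadraticChar_eq_pow_of_char_ne_two' (char_ne_two h2L) y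
  have h6 := quadraticChar_eq_pow_of_char_ne_two' (char_ne_two h2) P
  rw [show Fintype.card K / 2 = c by omega] at h6
  rw [hcL, pow_mul, hy, ← map_pow, ← h6] at h5
  refine MulChar.IsQuadratic.eq_of_eq_coe (quadraticChar_isQuadratic _) (quadraticChar_isQuadratic _)
    (char_ne_two h2L) ?_
  rw [h5, map_intCast]

open scoped Classical in
/-- the sum over the quadratic extension -/
theorem sum_ext (K : Type) [Field K] [Fintype K] (ν : K) (h2 : (2 : K) ≠ 0) (hν : ¬ IsSquare ν)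
    (n : ℕ) (α : Fin n → K) :
    ∃ (L : Type) (_ : Field L) (_ : Fintype L) (_ : Algebra K L), Module.finrank K L = 2 ∧
      ∑ z : L, (quadraticChar L (aeval z (∏ i, (X - C (α i)))) : ℤ) =
        ∑ a : K, ∑ b : K, (quadraticChar K (∏ i, ((a - α i) ^ 2 - ν * b ^ 2)) : ℤ) := by
  have hfact : Fact (∀ r : K, r ^ 2 ≠ ν + 0 * r) := ⟨fun r hr => hν ⟨r, by
    rw [zero_mul, add_zero] at hr
    rw [← hr, sq]⟩⟩
  let eq : QuadraticAlgebra K ν 0 ≃ K × K := QuadraticAlgebra.equivProd ν 0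
  let _ : Fintype (QuadraticAlgebra K ν 0) := Fintype.ofEquiv (K × K) eq.symm
  refine ⟨QuadraticAlgebra K ν 0, inferInstance, inferInstance, inferInstance,
    QuadraticAlgebra.finrank_eq_two _ _, ?_⟩
  have hodd := FiniteField.odd_card_of_char_ne_two (char_ne_two h2)
  obtain ⟨c, hc⟩ : ∃ c, Fintype.card K = 2 * c + 1 := ⟨Fintype.card K / 2, by omega⟩
  have hcardL : Fintype.card (QuadraticAlgebra K ν 0) = Fintype.card K ^ 2 := by
    rw [Fintype.card_congr eq, Fintype.card_prod, sq]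
  rw [← Fintype.sum_prod_type' (f := fun a b : K =>
    (quadraticChar K (∏ i, ((a - α i) ^ 2 - ν * b ^ 2)) : ℤ))]
  rw [← Equiv.sum_comp eq.symm]
  refine Finset.sum_congr rfl fun z _ => ?_
  refine qchar_ext h2 hcardL _ _ ?_
  rw [map_prod, map_prod, ← Finset.prod_pow]
  refine Finset.prod_congr rfl fun i _ => ?_
  rw [map_sub, aeval_X, aeval_C, frob_sh h2 hν hc]
  congr 1
  rw [QuadraticAlgebra.re_sub, QuadraticAlgebra.im_sub, QuadraticAlgebra.algebraMap_re,
    QuadraticAlgebra.algebraMap_im, sub_zero]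
  rfl

/-- sharp bounds -/
theorem sharp_sh (hW12 : StW12) (K : Type) [Field K] [Fintype K] (ν : K) (h2 : (2 : K) ≠ 0)
    (hν : ¬ IsSquare ν) (n : ℕ) (α : Fin n → K) (hn : Even n) (hn1 : 1 ≤ n)
    (hα : Function.Injective α) :
    |((∑ x : K, qc (∏ i, (x - α i)) + 1) ^ 2 +
      (∑ a : K, ∑ b : K, qc (∏ i, ((a - α i) ^ 2 - ν * b ^ 2)) + 1)) / 2| ≤
      ((n - 2) * (n - 3) / 2 : ℝ) * Fintype.card K ∧
    |((∑ x : K, qc (∏ i, (x - α i)) + 1) ^ 2 -
      (∑ a : K, ∑ b : K, qc (∏ i, ((a - α i) ^ 2 - ν * b ^ 2)) + 1)) / 2| ≤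
      ((n - 2) * (n - 1) / 2 : ℝ) * Fintype.card K := by
  classical
  set f : K[X] := ∏ i, (X - C (α i)) with hf
  have hmon : f.Monic := monic_prod_of_monic _ _ (fun i _ => monic_X_sub_C _)
  have hdeg : f.natDegree = n := by
    rw [hf, natDegree_prod_of_monic _ _ (fun i _ => monic_X_sub_C _)]
    simp
  have hsq : Squarefree f := (separable_prod_X_sub_C_iff.2 hα).squarefree
  obtain ⟨s, hs1, hs2, hs3⟩ := hW12 K f (char_ne_two h2) hsq (by rw [hdeg]; exact hn1)
  obtain ⟨L, _, _, _, hL1, hL2⟩ := sum_ext K ν h2 hν n α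
  have e1 := hs3 K
  have e2 := hs3 L
  rw [if_pos (by rw [hdeg]; exact hn), hmon.leadingCoeff, map_one] at e1 e2
  simp only [Module.finrank_self, pow_one, Int.cast_one, one_pow, Multiset.map_id'] at e1
  simp only [hL1, Int.cast_one, one_pow] at e2
  rw [hL2] at e2
  set A : ℝ := ∑ x : K, qc (∏ i, (x - α i)) with hA
  set A' : ℝ := ∑ a : K, ∑ b : K, qc (∏ i, ((a - α i) ^ 2 - ν * b ^ 2)) with hA'
  have hqc : ∀ x : K, qc x = ((quadraticChar K x : ℤ) : ℝ) := by
    intro x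
    unfold qc
    rw [quadraticChar_apply]
    unfold quadraticCharFun
    split_ifs <;> simp
  have f1 : ((A : ℝ) : ℂ) + 1 = - s.sum := by
    rw [← e1, hA]
    push_cast
    congr 1
    refine Finset.sum_congr rfl fun x _ => ?_
    rw [hqc, show aeval x f = ∏ i, (x - α i) by
      rw [hf, map_prod]
      refine Finset.prod_congr rfl fun i _ => ?_
      rw [map_sub, aeval_X, aeval_C]
      rfl]
    push_cast
    rfl
  have f2 : ((A' : ℝ) : ℂ) + 1 = - (s.map (fun ω => ω ^ 2)).sum := by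
    rw [← e2, hA']
    push_cast
    congr 1
    refine Finset.sum_congr rfl fun x _ => Finset.sum_congr rfl fun y _ => ?_
    rw [hqc]
    push_cast
    rfl
  have hcard : (Multiset.card s : ℝ) = n - 2 := by
    obtain ⟨r, hr⟩ := hn
    have : Multiset.card s + 2 = n := by
      rw [hs1, hdeg]
      omega
    rw [← this]
    push_cast
    ring
  obtain ⟨-, g2, g3⟩ := e2_bound (√(Fintype.card K)) (Real.sqrt_nonneg _) s hs2
  rw [hcard, Real.sq_sqrt (Nat.cast_nonneg _)] at g2 g3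
  constructor
  · have h : ((((A + 1) ^ 2 + (A' + 1)) / 2 : ℝ) : ℂ) =
        (s.sum ^ 2 - (s.map (fun ω => ω ^ 2)).sum) / 2 := by
      push_cast
      rw [f1, f2]
      ring
    rw [← Real.norm_eq_abs, ← Complex.norm_real, h]
    refine g2.trans (le_of_eq ?_)
    ring
  · have h : ((((A + 1) ^ 2 - (A' + 1)) / 2 : ℝ) : ℂ) =
        (s.sum ^ 2 + (s.map (fun ω => ω ^ 2)).sum) / 2 := by
      push_cast
      rw [f1, f2]
      ring
    rw [← Real.norm_eq_abs, ← Complex.norm_real, h]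
    refine g3.trans (le_of_eq ?_)
    ring

end Pool.Agent.Helper47.TK
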