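import Pool.Agent.Helper47.TK.StS
import Pool.Agent.Helper47.TK.M_Sh

/-!
# Projects TK and TS: exact numbers of points of the double planes (the first part of the proof is the one of
`Pool/Agent/Helper99/TK/M_K3.lean`)
-/

set_option autoImplicit false

namespace Pool.Agent.Helper47.TK

open Pool.Agent.Helper95.TT Pool.Agent.Helper24.TF Pool.Agent.Helper99.TK Pool.Agent.Helper95.WS
open scoped Classical

theorem qc_sq {K : Type} [Field K] [Fintype K] (x : K) : qc (x ^ 2) = if x = 0 then 0 else 1 := by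
  unfold qc
  by_cases hx : x = 0
  · subst hx
    simp
  · rw [if_neg (pow_ne_zero 2 hx), if_pos (IsSquare.sq x), if_neg hx]

theorem cnt2 {K : Type} [Field K] [Fintype K] (h2 : (2 : K) ≠ 0) (d : K) (g : K → K) :
    (Nat.card {z : K × K // z.2 ^ 2 = d * g z.1} : ℝ) =
      (Fintype.card K : ℝ) + qc d * ∑ x : K, qc (g x) := by
  rw [cnt, Fintype.sum_prod_type]
  simp only [card_sqrt h2]
  rw [Finset.sum_add_distrib, Finset.mul_sum]
  simp only [qc_mul]
  simp

theorem cnt3 {K : Type} [Field K] [Fintype K] (h2 : (2 : K) ≠ 0) (d : K) (g : K → K → K) :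
    (Nat.card {z : K × K × K // z.2.2 ^ 2 = d * g z.1 z.2.1} : ℝ) =
      (Fintype.card K : ℝ) ^ 2 + qc d * ∑ s : K, ∑ p : K, qc (g s p) := by
  rw [cnt, Fintype.sum_prod_type]
  have : ∀ s : K, (∑ y : K × K, if y.2 ^ 2 = d * g s y.1 then (1 : ℝ) else 0) =
      (Fintype.card K : ℝ) + qc d * ∑ p : K, qc (g s p) := by
    intro s
    rw [Fintype.sum_prod_type]
    simp only [card_sqrt h2]
    rw [Finset.sum_add_distrib, Finset.mul_sum]
    simp only [qc_mul]
    simp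
  rw [Finset.sum_congr rfl (fun s _ => this s), Finset.sum_add_distrib, Finset.mul_sum]
  simp
  ring

theorem exactD (hK1 : StK1) {K : Type} [Field K] [Fintype K] (h2 : (2 : K) ≠ 0) (ν : K)
    (hν : ¬ IsSquare ν) (n : ℕ) (α : Fin n → K) (d : K) :
    (ptsD d α : ℝ) = (Fintype.card K : ℝ) ^ 2 + (Fintype.card K : ℝ) + 1 + qc d *
      (((∑ x : K, qc (∏ i, (x - α i)) + 1) ^ 2 +
        (∑ a : K, ∑ b : K, qc (∏ i, ((a - α i) ^ 2 - ν * b ^ 2)) + 1)) / 2) := by
  have hS := hK1 K ν h2 hν (fun s p => qc (∏ i, (α i ^ 2 - α i * s + p)))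
  set A : ℝ := ∑ x : K, qc (∏ i, (x - α i)) with hAdef
  set A' : ℝ := ∑ a : K, ∑ b : K, qc (∏ i, ((a - α i) ^ 2 - ν * b ^ 2)) with hA'def
  have e1 : ∑ u : K, ∑ w : K, qc (∏ i, (α i ^ 2 - α i * (u + w) + u * w)) = A * A := by
    rw [hAdef, Finset.sum_mul_sum]
    refine Finset.sum_congr rfl fun u _ => Finset.sum_congr rfl fun w _ => ?_
    rw [← qc_mul, ← Finset.prod_mul_distrib]
    congr 1
    refine Finset.prod_congr rfl fun i _ => ?_
    ring
  have e2 : ∑ a : K, ∑ b : K, qc (∏ i, (α i ^ 2 - α i * (2 * a) + (a ^ 2 - ν * b ^ 2))) = A' := by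
    rw [hA'def]
    refine Finset.sum_congr rfl fun u _ => Finset.sum_congr rfl fun w _ => ?_
    congr 1
    refine Finset.prod_congr rfl fun i _ => ?_
    ring
  rw [e1, e2] at hS
  unfold ptsD
  push_cast
  rw [cnt3 h2 d (fun s p => ∏ i, (α i ^ 2 - α i * s + p)), cnt2 h2 d (fun x => ∏ i, (x - α i)),
    cnt, card_sqrt h2, ← hAdef]
  have h3 : ∑ s : K, ∑ p : K, qc (∏ i, (α i ^ 2 - α i * s + p)) = (A * A + A') / 2 := by
    linarith
  rw [h3]
  ring

theorem exactE (hK1 : StK1) {K : Type} [Field K] [Fintype K] (h2 : (2 : K) ≠ 0) (ν : K)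
    (hν : ¬ IsSquare ν) (n : ℕ) (α : Fin n → K) (d : K) :
    (ptsE d α : ℝ) = (Fintype.card K : ℝ) ^ 2 + (Fintype.card K : ℝ) + 1 + qc d *
      (((∑ x : K, qc (∏ i, (x - α i)) + 1) ^ 2 -
        (∑ a : K, ∑ b : K, qc (∏ i, ((a - α i) ^ 2 - ν * b ^ 2)) + 1)) / 2) := by
  have hν0 : ν ≠ 0 := by
    rintro rfl
    exact hν IsSquare.zero
  have hqν : qc ν = -1 := by
    unfold qc
    rw [if_neg hν0, if_neg hν]
  have hS := hK1 K ν h2 hν (fun s p => qc ((s ^ 2 - 4 * p) * ∏ i, (α i ^ 2 - α i * s + p)))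
  set A : ℝ := ∑ x : K, qc (∏ i, (x - α i)) with hAdef
  set A' : ℝ := ∑ a : K, ∑ b : K, qc (∏ i, ((a - α i) ^ 2 - ν * b ^ 2)) with hA'def
  set Z : ℝ := ∑ x : K, qc (∏ i, (x - α i)) ^ 2 with hZ
  have e1 : ∑ u : K, ∑ w : K, qc (((u + w) ^ 2 - 4 * (u * w)) *
      ∏ i, (α i ^ 2 - α i * (u + w) + u * w)) = A * A - Z := by
    have h1 : ∀ u w : K, qc (((u + w) ^ 2 - 4 * (u * w)) * ∏ i, (α i ^ 2 - α i * (u + w) + u * w)) =
        qc (∏ i, (u - α i)) * qc (∏ i, (w - α i)) -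
          if w = u then qc (∏ i, (u - α i)) * qc (∏ i, (u - α i)) else 0 := by
      intro u w
      have e3 : ∏ i, (α i ^ 2 - α i * (u + w) + u * w) = (∏ i, (u - α i)) * ∏ i, (w - α i) := by
        rw [← Finset.prod_mul_distrib]
        refine Finset.prod_congr rfl fun i _ => ?_
        ring
      rw [e3, show (u + w) ^ 2 - 4 * (u * w) = (w - u) ^ 2 by ring, qc_mul, qc_mul, qc_sq]
      by_cases hw : w = u
      · subst hw
        simp
      · rw [if_neg (sub_ne_zero.2 hw), if_neg hw]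
        ring
    simp only [h1]
    rw [Finset.sum_congr rfl fun u _ => Finset.sum_sub_distrib _ _, Finset.sum_sub_distrib,
      hAdef, Finset.sum_mul_sum, hZ]
    congr 1
    refine Finset.sum_congr rfl fun u _ => ?_
    rw [Finset.sum_ite_eq']
    simp [sq]
  have e2 : ∑ a : K, ∑ b : K, qc (((2 * a) ^ 2 - 4 * (a ^ 2 - ν * b ^ 2)) *
      ∏ i, (α i ^ 2 - α i * (2 * a) + (a ^ 2 - ν * b ^ 2))) = - (A' - Z) := by
    have h1 : ∀ a b : K, qc (((2 * a) ^ 2 - 4 * (a ^ 2 - ν * b ^ 2)) *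
        ∏ i, (α i ^ 2 - α i * (2 * a) + (a ^ 2 - ν * b ^ 2))) =
        - (qc (∏ i, ((a - α i) ^ 2 - ν * b ^ 2)) -
          if b = 0 then qc (∏ i, (a - α i)) ^ 2 else 0) := by
      intro a b
      have e3 : ∏ i, (α i ^ 2 - α i * (2 * a) + (a ^ 2 - ν * b ^ 2)) =
          ∏ i, ((a - α i) ^ 2 - ν * b ^ 2) := by
        refine Finset.prod_congr rfl fun i _ => ?_
        ring
      rw [e3, show (2 * a) ^ 2 - 4 * (a ^ 2 - ν * b ^ 2) = ν * (2 * b) ^ 2 by ring, qc_mul, qc_mul,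
        hqν, qc_sq]
      by_cases hb : b = 0
      · subst hb
        rw [if_pos (mul_zero _), if_pos rfl]
        have e4 : ∏ i, ((a - α i) ^ 2 - ν * (0 : K) ^ 2) = (∏ i, (a - α i)) * ∏ i, (a - α i) := by
          rw [← Finset.prod_mul_distrib]
          refine Finset.prod_congr rfl fun i _ => ?_
          ring
        rw [e4, qc_mul]
        ring
      · rw [if_neg (mul_ne_zero h2 hb), if_neg hb]
        ring
    simp only [h1]
    rw [Finset.sum_congr rfl fun u _ => Finset.sum_neg_distrib _, Finset.sum_neg_distrib,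
      Finset.sum_congr rfl fun u _ => Finset.sum_sub_distrib _ _, Finset.sum_sub_distrib]
    congr 2
    rw [hZ]
    refine Finset.sum_congr rfl fun u _ => ?_
    rw [Finset.sum_ite_eq']
    simp
  rw [e1, e2] at hS
  unfold ptsE
  push_cast
  rw [cnt3 h2 d (fun s p => (s ^ 2 - 4 * p) * ∏ i, (α i ^ 2 - α i * s + p)),
    cnt2 h2 d (fun x => ∏ i, (x - α i)), ← hAdef]
  have h3 : ∑ s : K, ∑ p : K, qc ((s ^ 2 - 4 * p) * ∏ i, (α i ^ 2 - α i * s + p)) =
      (A * A - A') / 2 := by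
    linarith
  rw [h3]
  ring

end Pool.Agent.Helper47.TK
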