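import Pool.Agent.Helper47.TK.StK
import Pool.Agent.Helper24.TF.M_F8

/-!
# Project TK, module K5: Bessel's inequality for twists (the first half of the proof of StF8 by Helper24)
-/

set_option autoImplicit false

namespace Pool.Agent.Helper47.TK

open NumberField IsDedekindDomain Polynomial Filter Topology
open Pool.Agent.Helper95.TT Pool.Agent.Helper24.TF
open scoped Classical

noncomputable section

variable {k : Type} [Field k] [NumberField k] {m : ℕ}

private lemma xx_abs (D : Py k m) (z : Σ v : Pr k, (Fin m → Kv v)) : |xx D z| ≤ 1 := by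
  unfold xx
  split_ifs
  · simp
  · exact chF_abs _ _

/-- few zeros, as a mean value -/
private lemma zero_mean (hF1 : StF1) (P : Py k m) (hP : P ≠ 0) :
    ∃ (C : ℝ) (R : Set (Pr k)), 0 ≤ C ∧ R.Finite ∧ ∀ v, v ∉ R →
      (∑ y : Fin m → Kv v, (if val v y P = 0 then (1 : ℝ) else 0)) / (q v : ℝ) ^ m * q v ≤ C := by
  obtain ⟨C, R, hC, hR, h⟩ := hF1 k m P hP
  refine ⟨C, R, hC, hR, fun v hv => ?_⟩
  have h1 := h v hv
  have hq := q_two_tf v
  have hq0 : (0 : ℝ) < (q v : ℝ) ^ m := by positivity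
  rw [div_mul_eq_mul_div, div_le_iff₀ hq0]
  refine le_trans (le_of_eq ?_) h1
  congr 1
  rw [Nat.card_eq_fintype_card, Fintype.card_subtype, Finset.sum_ite, Finset.sum_const_zero, add_zero,
    Finset.sum_const, nsmul_eq_mul, mul_one]

theorem hK5 (hA2 : StA2) (hA7 : StA7) (hA8 : StA8) (hF1 : StF1) (hF3 : StF3)
    (hF6 : StF6) : StK5 := by
  intro k _ _ m c B hcB ι _ D hD hDD
  have hs := (hA2 k).1
  have hl := (hA2 k).2
  have hq0 : ∀ v : Pr k, (0 : ℝ) < q v := fun v => by linarith [q_two_tf v]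
  have h2fin : {v : Pr k | (2 : 𝓞 k) ∈ v.asIdeal}.Finite := (hA7 k).1 2 two_ne_zero
  set V := Σ v : Pr k, (Fin m → Kv v) with hV
  set cc : V → ℝ := fun z => c z.1 z.2 with hcc
  have hccB : ∀ z : V, |cc z| ≤ B := fun z => hcB z.1 z.2
  -- means
  set μ : ι → Pr k → ℝ := fun i v =>
    (∑ y : Fin m → Kv v, cc ⟨v, y⟩ * xx (D i) ⟨v, y⟩) / (q v : ℝ) ^ m with hμ
  have hcx : ∀ i (z : V), |cc z * xx (D i) z| ≤ B := fun i z => by
    rw [abs_mul]
    exact (mul_le_of_le_one_right (abs_nonneg _) (xx_abs _ _)).trans (hccB z)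
  have hμB : ∀ i v, |μ i v| ≤ B := by
    intro i v
    have hqm : (0 : ℝ) < (q v : ℝ) ^ m := pow_pos (hq0 v) m
    rw [abs_div, abs_of_pos hqm, div_le_iff₀ hqm]
    refine (Finset.abs_sum_le_sum_abs _ _).trans ?_
    refine (Finset.sum_le_sum fun y _ => hcx i ⟨v, y⟩).trans (le_of_eq ?_)
    rw [Finset.sum_const, Finset.card_univ, nsmul_eq_mul, ftcard_fun, mul_comm]
  -- Gram matrix
  have hgram : ∀ i j, Tendsto (fun s : ℝ => ∑' z : V, (s - 1) * wt s z.1 / (q z.1 : ℝ) ^ m *
      (xx (D i) z * xx (D j) z)) (𝓝[>] 1) (𝓝 (if i = j then 1 else 0)) := by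
    intro i j
    have hxx1 : ∀ z : V, |xx (D i) z * xx (D j) z| ≤ 1 := fun z => by
      rw [abs_mul]
      exact mul_le_one₀ (xx_abs _ _) (abs_nonneg _) (xx_abs _ _)
    have e1 : ∀ᶠ s : ℝ in 𝓝[>] 1, (s - 1) * ∑' v : Pr k,
        ((∑ y : Fin m → Kv v, xx (D i) ⟨v, y⟩ * xx (D j) ⟨v, y⟩) / (q v : ℝ) ^ m) * wt s v =
        ∑' z : V, (s - 1) * wt s z.1 / (q z.1 : ℝ) ^ m * (xx (D i) z * xx (D j) z) := by
      filter_upwards [self_mem_nhdsWithin] with s hs1
      exact ((sig_tf hA2 hs1 (fun z => xx (D i) z * xx (D j) z) 1 hxx1).2).symm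
    refine Tendsto.congr' e1 ?_
    have habs : ∀ v : Pr k, |(∑ y : Fin m → Kv v, xx (D i) ⟨v, y⟩ * xx (D j) ⟨v, y⟩) /
        (q v : ℝ) ^ m| ≤ 1 := by
      intro v
      have hqm : (0 : ℝ) < (q v : ℝ) ^ m := pow_pos (hq0 v) m
      rw [abs_div, abs_of_pos hqm, div_le_iff₀ hqm, one_mul]
      refine (Finset.abs_sum_le_sum_abs _ _).trans ?_
      refine (Finset.sum_le_sum fun y _ => hxx1 ⟨v, y⟩).trans (le_of_eq ?_)
      rw [Finset.sum_const, Finset.card_univ, nsmul_eq_mul, ftcard_fun, mul_one]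
    split_ifs with hij
    · subst hij
      obtain ⟨C1, R1, hC1, hR1, h1⟩ := zero_mean hF1 (D i) (hD i)
      -- the defect
      set a : Pr k → ℝ := fun v => 1 - (∑ y : Fin m → Kv v, xx (D i) ⟨v, y⟩ * xx (D i) ⟨v, y⟩) /
        (q v : ℝ) ^ m with ha
      have hn := null_tf hA2 a 2 C1 (R1 ∪ {v : Pr k | (2 : 𝓞 k) ∈ v.asIdeal}) (hR1.union h2fin)
        (fun v => by
          have h3 := abs_le.1 (habs v)
          exact abs_le.2 ⟨by simp only [ha]; linarith [h3.2], by simp only [ha]; linarith [h3.1]⟩)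
        (fun v hv => by
          have hv1 : v ∉ R1 := fun h => hv (Or.inl h)
          have hv2 : (2 : 𝓞 k) ∉ v.asIdeal := fun h => hv (Or.inr h)
          have hqm : (0 : ℝ) < (q v : ℝ) ^ m := pow_pos (hq0 v) m
          have e2 : a v = (∑ y : Fin m → Kv v, (if val v y (D i) = 0 then (1 : ℝ) else 0)) /
              (q v : ℝ) ^ m := by
            have e3 : (1 : ℝ) = (∑ y : Fin m → Kv v, (1 : ℝ)) / (q v : ℝ) ^ m := by
              rw [Finset.sum_const, Finset.card_univ, nsmul_eq_mul, ftcard_fun, mul_one,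
                div_self hqm.ne']
            simp only [ha]
            rw [show (1 : ℝ) - (∑ y : Fin m → Kv v, xx (D i) ⟨v, y⟩ * xx (D i) ⟨v, y⟩) /
              (q v : ℝ) ^ m = (∑ y : Fin m → Kv v, (1 : ℝ)) / (q v : ℝ) ^ m -
              (∑ y : Fin m → Kv v, xx (D i) ⟨v, y⟩ * xx (D i) ⟨v, y⟩) / (q v : ℝ) ^ m by
                rw [← e3], ← sub_div, ← Finset.sum_sub_distrib]
            congr 1
            refine Finset.sum_congr rfl fun y _ => ?_
            unfold xx chF
            rw [if_neg hv2]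
            split_ifs <;> norm_num
          have h4 := h1 v hv1
          rw [← e2] at h4
          have h5 : 0 ≤ a v := by
            rw [e2]
            exact div_nonneg (Finset.sum_nonneg fun y _ => by split_ifs <;> norm_num) hqm.le
          rw [abs_of_nonneg h5]
          refine le_trans (mul_le_mul_of_nonneg_left ?_ h5) h4
          rw [Real.sqrt_le_left (hq0 v).le]
          nlinarith [q_two_tf v])
      have h6 := hl.sub hn
      rw [sub_zero] at h6
      refine h6.congr' ?_
      filter_upwards [self_mem_nhdsWithin] with s hs1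
      have hs2 : (1 : ℝ) < s := hs1
      rw [← mul_sub, ← Summable.tsum_sub (hs s hs2)]
      · congr 1
        refine tsum_congr fun v => ?_
        simp only [ha]
        ring
      · refine ((hs s hs2).mul_left 2).of_norm_bounded fun v => ?_
        rw [norm_mul, Real.norm_of_nonneg (wt_nonneg_tf s v), Real.norm_eq_abs]
        refine mul_le_mul_of_nonneg_right ?_ (wt_nonneg_tf s v)
        have h3 := abs_le.1 (habs v)
        exact abs_le.2 ⟨by simp only [ha]; linarith [h3.2], by simp only [ha]; linarith [h3.1]⟩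
    · have hne : D i * D j ≠ 0 := mul_ne_zero (hD i) (hD j)
      have h1 := hF6 k m (D i * D j) hne (hDD i j hij)
      -- difference with av
      set a : Pr k → ℝ := fun v => (∑ y : Fin m → Kv v, xx (D i) ⟨v, y⟩ * xx (D j) ⟨v, y⟩) /
        (q v : ℝ) ^ m - av (D i * D j) v with ha
      have hav : ∀ v, |av (D i * D j) v| ≤ 1 := by
        intro v
        have hqm : (0 : ℝ) < (q v : ℝ) ^ m := pow_pos (hq0 v) m
        unfold av
        rw [finsum_eq_sum_of_fintype, abs_div, abs_of_pos hqm, div_le_iff₀ hqm, one_mul]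
        refine (Finset.abs_sum_le_sum_abs _ _).trans ?_
        refine (Finset.sum_le_sum fun y _ => chF_abs _ _).trans (le_of_eq ?_)
        rw [Finset.sum_const, Finset.card_univ, nsmul_eq_mul, ftcard_fun, mul_one]
      have hn := null_tf hA2 a 2 0 {v : Pr k | (2 : 𝓞 k) ∈ v.asIdeal} h2fin
        (fun v => by
          have h3 := abs_le.1 (habs v)
          have h4 := abs_le.1 (hav v)
          exact abs_le.2 ⟨by simp only [ha]; linarith [h3.1, h4.2],
            by simp only [ha]; linarith [h3.2, h4.1]⟩)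
        (fun v hv => by
          have hv2 : (2 : 𝓞 k) ∉ v.asIdeal := hv
          have e2 : a v = 0 := by
            simp only [ha]
            unfold av
            rw [finsum_eq_sum_of_fintype, ← sub_div, ← Finset.sum_sub_distrib]
            rw [Finset.sum_eq_zero, zero_div]
            intro y _
            unfold xx
            rw [if_neg hv2, if_neg hv2, map_mul, (hF3 k v hv2).1, sub_self]
          rw [e2, abs_zero, zero_mul])
      have h6 := hn.add h1
      rw [add_zero] at h6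
      refine h6.congr' ?_
      filter_upwards [self_mem_nhdsWithin] with s hs1
      have hs2 : (1 : ℝ) < s := hs1
      rw [← mul_add, ← Summable.tsum_add]
      · congr 1
        refine tsum_congr fun v => ?_
        simp only [ha]
        ring
      · refine ((hs s hs2).mul_left 2).of_norm_bounded fun v => ?_
        rw [norm_mul, Real.norm_of_nonneg (wt_nonneg_tf s v), Real.norm_eq_abs]
        refine mul_le_mul_of_nonneg_right ?_ (wt_nonneg_tf s v)
        have h3 := abs_le.1 (habs v)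
        have h4 := abs_le.1 (hav v)
        exact abs_le.2 ⟨by simp only [ha]; linarith [h3.1, h4.2],
          by simp only [ha]; linarith [h3.2, h4.1]⟩
      · refine ((hs s hs2).mul_left 1).of_norm_bounded fun v => ?_
        rw [norm_mul, Real.norm_of_nonneg (wt_nonneg_tf s v), Real.norm_eq_abs]
        exact mul_le_mul_of_nonneg_right (hav v) (wt_nonneg_tf s v)
  -- Bessel
  have hbes := hA8 V ι (fun s z => (s - 1) * wt s z.1 / (q z.1 : ℝ) ^ m) (cc)
    (fun i z => xx (D i) z) B
    (by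
      filter_upwards [self_mem_nhdsWithin] with s hs1
      have hs2 : (1 : ℝ) < s := hs1
      refine ⟨fun z => div_nonneg (mul_nonneg (by linarith) (wt_nonneg_tf s z.1))
        (pow_nonneg (hq0 z.1).le m), ?_⟩
      have h := (sig_tf (k := k) (m := m) hA2 hs2 (fun _ => (1 : ℝ)) 1 (fun _ => by simp)).1
      simpa using h)
    (by
      refine hl.congr' ?_
      filter_upwards [self_mem_nhdsWithin] with s hs1
      have hs2 : (1 : ℝ) < s := hs1
      have h := (sig_tf (k := k) (m := m) hA2 hs2 (fun _ => (1 : ℝ)) 1 (fun _ => by simp)).2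
      simp only [mul_one] at h
      rw [h]
      congr 1
      refine tsum_congr fun v => ?_
      rw [Finset.sum_const, Finset.card_univ, nsmul_eq_mul, ftcard_fun, mul_one,
        div_self (pow_pos (hq0 v) m).ne', one_mul])
    hccB (fun i z => xx_abs _ _) hgram
  have hbes' : ∀ ε > 0, ∀ᶠ s : ℝ in 𝓝[>] 1,
      ∑ i, ((s - 1) * ∑' v : Pr k, μ i v * wt s v) ^ 2 ≤ B ^ 2 + ε := by
    intro ε hε
    filter_upwards [hbes ε hε, self_mem_nhdsWithin] with s h1 hs1
    have hs2 : (1 : ℝ) < s := hs1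
    refine le_trans (le_of_eq ?_) h1
    refine Finset.sum_congr rfl fun i _ => ?_
    rw [(sig_tf hA2 hs2 (fun z => cc z * xx (D i) z) B (hcx i)).2]
  -- the primes above 2
  set ν : ι → Pr k → ℝ := fun i v =>
    (∑ᶠ y : Fin m → Kv v, c v y * chF v (val v y (D i))) / (q v : ℝ) ^ m with hν
  have hνB : ∀ i v, |ν i v| ≤ B := by
    intro i v
    have hqm : (0 : ℝ) < (q v : ℝ) ^ m := pow_pos (hq0 v) m
    simp only [hν]
    rw [finsum_eq_sum_of_fintype, abs_div, abs_of_pos hqm, div_le_iff₀ hqm]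
    refine (Finset.abs_sum_le_sum_abs _ _).trans ?_
    have h1 : ∀ y : Fin m → Kv v, |c v y * chF v (val v y (D i))| ≤ B := fun y => by
      rw [abs_mul]
      exact (mul_le_of_le_one_right (abs_nonneg _) (chF_abs _ _)).trans (hcB v y)
    refine (Finset.sum_le_sum fun y _ => h1 y).trans (le_of_eq ?_)
    rw [Finset.sum_const, Finset.card_univ, nsmul_eq_mul, ftcard_fun, mul_comm]
  have hnull : ∀ i, Tendsto (fun s : ℝ => (s - 1) * ∑' v : Pr k, (ν i v - μ i v) * wt s v)
      (𝓝[>] 1) (𝓝 0) := fun i =>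
    null_tf hA2 (fun v => ν i v - μ i v) (B + B) 0 {v : Pr k | (2 : 𝓞 k) ∈ v.asIdeal} h2fin
      (fun v => (abs_sub _ _).trans (add_le_add (hνB i v) (hμB i v)))
      (fun v hv => by
        have hv2 : (2 : 𝓞 k) ∉ v.asIdeal := hv
        have e2 : ν i v - μ i v = 0 := by
          simp only [hν, hμ]
          rw [finsum_eq_sum_of_fintype, sub_eq_zero]
          congr 1
          refine Finset.sum_congr rfl fun y _ => ?_
          unfold xx
          rw [if_neg hv2]
        show |ν i v - μ i v| * √(q v) ≤ 0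
        rw [e2, abs_zero, zero_mul])
  intro ε hε
  set Y : ι → ℝ → ℝ := fun i s => (s - 1) * ∑' v : Pr k, μ i v * wt s v with hY
  set E : ι → ℝ → ℝ := fun i s => (s - 1) * ∑' v : Pr k, (ν i v - μ i v) * wt s v with hE
  have hB0 : 0 ≤ |B| := abs_nonneg B
  have htot : Tendsto (fun s => ∑ i, (4 * |B| * |E i s| + E i s ^ 2)) (𝓝[>] 1) (𝓝 0) := by
    have h1 : Tendsto (fun s => ∑ i, (4 * |B| * |E i s| + E i s ^ 2)) (𝓝[>] 1)
        (𝓝 (∑ i : ι, (4 * |B| * |(0 : ℝ)| + 0 ^ 2))) :=
      tendsto_finsetSum _ fun i _ => (((hnull i).abs).const_mul _).add ((hnull i).pow 2)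
    simpa using h1
  have hYb : ∀ᶠ s : ℝ in 𝓝[>] 1, ∀ i, |Y i s| ≤ 2 * |B| := by
    have h1 : ∀ᶠ s : ℝ in 𝓝[>] 1, (s - 1) * (∑' v : Pr k, wt s v) < 2 :=
      hl.eventually_lt_const (by norm_num)
    filter_upwards [h1, self_mem_nhdsWithin] with s hs1 hs2 i
    have hs3 : (1 : ℝ) < s := hs2
    have h2 : |Y i s| ≤ |B| * ((s - 1) * (∑' v : Pr k, wt s v)) := by
      simp only [hY]
      rw [abs_mul, abs_of_pos (by linarith : (0 : ℝ) < s - 1)]
      have h3 : |∑' v : Pr k, μ i v * wt s v| ≤ |B| * ∑' v : Pr k, wt s v := by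
        rw [← tsum_mul_left, ← Real.norm_eq_abs]
        refine tsum_of_norm_bounded ((hs s hs3).mul_left |B|).hasSum fun v => ?_
        rw [norm_mul, Real.norm_of_nonneg (wt_nonneg_tf s v), Real.norm_eq_abs]
        exact mul_le_mul_of_nonneg_right ((hμB i v).trans (le_abs_self B)) (wt_nonneg_tf s v)
      have h4 := mul_le_mul_of_nonneg_left h3 (by linarith : (0 : ℝ) ≤ s - 1)
      linarith
    have h3 : |B| * ((s - 1) * (∑' v : Pr k, wt s v)) ≤ |B| * 2 :=
      mul_le_mul_of_nonneg_left hs1.le hB0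
    linarith
  filter_upwards [hbes' (ε / 2) (by positivity), hYb, self_mem_nhdsWithin,
    htot.eventually_lt_const (show (0 : ℝ) < ε / 2 by positivity)] with s h1 h2 h3 h4
  have h5 : (1 : ℝ) < s := h3
  have hsm : ∀ (a : Pr k → ℝ) (M : ℝ), (∀ v, |a v| ≤ M) → Summable fun v : Pr k => a v * wt s v :=
    fun a M ha => ((hs s h5).mul_left M).of_norm_bounded fun v => by
      rw [norm_mul, Real.norm_of_nonneg (wt_nonneg_tf s v), Real.norm_eq_abs]
      exact mul_le_mul_of_nonneg_right (ha v) (wt_nonneg_tf s v)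
  have hdec : ∀ i, (s - 1) * ∑' v : Pr k, ν i v * wt s v = Y i s + E i s := by
    intro i
    simp only [hY, hE]
    rw [← mul_add, ← Summable.tsum_add (hsm _ B (hμB i))
      (hsm _ (B + B) fun v => (abs_sub _ _).trans (add_le_add (hνB i v) (hμB i v)))]
    congr 1
    refine tsum_congr fun v => ?_
    ring
  have h6 : ∀ i, ((s - 1) * ∑' v : Pr k, ν i v * wt s v) ^ 2 ≤
      Y i s ^ 2 + (4 * |B| * |E i s| + E i s ^ 2) := by
    intro i
    rw [hdec i]
    have h7 := h2 i
    have h8 : Y i s * E i s ≤ 2 * |B| * |E i s| := by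
      refine (le_abs_self _).trans ?_
      rw [abs_mul]
      exact mul_le_mul_of_nonneg_right h7 (abs_nonneg _)
    nlinarith
  refine (Finset.sum_le_sum fun i _ => h6 i).trans ?_
  rw [Finset.sum_add_distrib]
  have h9 : ∑ i, Y i s ^ 2 ≤ B ^ 2 + ε / 2 := h1
  linarith

end

end Pool.Agent.Helper47.TK
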