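import Pool.Agent.Helper47.TK.StK
import Pool.Agent.Helper6.TF.M_F5

/-!
# Project TK: assembly for an abstract trace function (the proof is the one of `Pool/Agent/Helper6/TK/M_K7.lean`)
-/

set_option autoImplicit false

namespace Pool.Agent.Helper47.TK

open NumberField IsDedekindDomain Polynomial Filter Topology
open Pool.Agent.Helper95.TT Pool.Agent.Helper24.TF Pool.Agent.Helper6.TF
open scoped Classical

noncomputable section

theorem hK7G (hA7 : StA7) (hF1 : StF1) (hK5 : StK5) (hK6 : StK6)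
    (k : Type) [Field k] [NumberField k] (m n : ℕ) (r W : ℝ) (hr0 : 0 ≤ r)
    (T : (v : Pr k) → Kv v → (Fin n → Kv v) → ℝ)
    (hT : ∀ v : Pr k, (2 : 𝓞 k) ∉ v.asIdeal → ∀ α : Fin n → Kv v, Function.Injective α →
      ∃ l : ℝ, |l| ≤ W * q v ∧ ∀ d : Kv v, d ≠ 0 → T v d α = r * q v + chF v d * l)
    (a : Fin n → Py k m) (ha : Function.Injective a) (ι : Type) [Fintype ι] (D : ι → Py k m)
    (hD : ∀ i, D i ≠ 0)
    (hns : ∀ i j, i ≠ j → ¬ IsSquare (algebraMap (Py k m) (Ky k m) (D i * D j)))
    (C : ℝ) (R : Set (Pr k)) (b : ι → Pr k → ℝ) (hR : R.Finite)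
    (hb : ∀ i, ∀ v, v ∉ R → |b i v - (∑ᶠ y : Fin m → Kv v, if GoodK (D i) a v y then
      T v (val v y (D i)) (fun i => val v y (a i)) else 0) / (q v : ℝ) ^ m| ≤ C) :
    (∀ i, ∀ s : ℝ, 2 < s → Summable (fun v : Pr k => b i v * Real.log (q v) * (q v : ℝ) ^ (-s))) ∧
    ∀ ε > 0, ∀ᶠ s : ℝ in 𝓝[>] 2,
      ∑ i, ((s - 2) * (∑' v : Pr k, b i v * Real.log (q v) * (q v : ℝ) ^ (-s)) - r) ^ 2 ≤
        W ^ 2 + ε := by
  rw [← sq_abs W]
  set B : ℝ := |W| with hB
  have hB0 : 0 ≤ B := abs_nonneg W
  -- the traces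
  have hl : ∀ (v : Pr k) (y : Fin m → Kv v), ∃ l : ℝ, |l| ≤ B * q v ∧
      ((2 : 𝓞 k) ∉ v.asIdeal → Function.Injective (fun i => val v y (a i)) → ∀ d : Kv v, d ≠ 0 →
        T v d (fun i => val v y (a i)) = r * q v + chF v d * l) ∧
      (¬ Function.Injective (fun i => val v y (a i)) → l = 0) := by
    intro v y
    by_cases h : (2 : 𝓞 k) ∉ v.asIdeal ∧ Function.Injective (fun i => val v y (a i))
    · obtain ⟨l, h1, h2⟩ := hT v h.1 _ h.2
      exact ⟨l, h1.trans (mul_le_mul_of_nonneg_right (le_abs_self W) (Nat.cast_nonneg _)),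
        fun _ _ => h2, fun h3 => absurd h.2 h3⟩
    · refine ⟨0, ?_, fun h1 h2 => absurd ⟨h1, h2⟩ h, fun _ => rfl⟩
      rw [abs_zero]
      positivity
  choose l hl1 hl2 hl3 using hl
  have hq0 : ∀ v : Pr k, (0 : ℝ) < q v := fun v => by exact_mod_cast q_pos v
  have hc : ∀ (v : Pr k) (y : Fin m → Kv v), |l v y / q v| ≤ B := by
    intro v y
    rw [abs_div, abs_of_pos (hq0 v), div_le_iff₀ (hq0 v)]
    exact hl1 v y
  have h5 := hK5 k m (fun v y => l v y / q v) B hc ι D hD hns
  -- the polynomials for F1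
  set P : ι → Py k m := fun i => D i * ∏ p ∈ (Finset.univ : Finset (Fin n)).offDiag, (a p.1 - a p.2)
    with hP
  have hP0 : ∀ i, P i ≠ 0 := by
    intro i
    refine mul_ne_zero (hD i) (Finset.prod_ne_zero_iff.2 fun p hp => ?_)
    rw [Finset.mem_offDiag] at hp
    exact sub_ne_zero.2 fun h => hp.2.2 (ha h)
  have hgood : ∀ (i : ι) (v : Pr k) (y : Fin m → Kv v), val v y (P i) ≠ 0 → GoodK (D i) a v y := by
    intro i v y h
    have := domain_Kv v
    rw [hP] at h
    simp only [map_mul, map_prod, map_sub] at h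
    refine ⟨left_ne_zero_of_mul h, fun s t hst => ?_⟩
    by_contra hne
    exact Finset.prod_ne_zero_iff.1 (right_ne_zero_of_mul h) (s, t)
      (Finset.mem_offDiag.2 ⟨Finset.mem_univ _, Finset.mem_univ _, hne⟩) (sub_eq_zero.2 hst)
  choose CF RF hCF hRF hbad using fun i => hF1 k m (P i) (hP0 i)
  have hR2 : {v : Pr k | (2 : 𝓞 k) ∈ v.asIdeal}.Finite := (hA7 k).1 2 (by norm_num)
  set BB' : ι → Pr k → ℝ := fun i v => (∑ᶠ y : Fin m → Kv v, if GoodK (D i) a v y then
      T v (val v y (D i)) (fun i => val v y (a i)) else 0) / (q v : ℝ) ^ m with hBB'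
  refine hK6 k ι (fun i v => (∑ᶠ y : Fin m → Kv v, l v y / q v * chF v (val v y (D i))) / (q v : ℝ) ^ m)
    r B ?_ h5 (C + r * ∑ i, CF i) ((R ∪ {v : Pr k | (2 : 𝓞 k) ∈ v.asIdeal}) ∪ ⋃ i, RF i) b
    ((hR.union hR2).union (Set.finite_iUnion hRF)) ?_
  · -- bound for the means
    intro i v
    have := finite_Kv v
    let _ : Fintype (Kv v) := Fintype.ofFinite _
    have hqm : (0 : ℝ) < (q v : ℝ) ^ m := pow_pos (hq0 v) m
    rw [finsum_eq_sum_of_fintype, abs_div, abs_of_pos hqm, div_le_iff₀ hqm]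
    calc |∑ y : Fin m → Kv v, l v y / q v * chF v (val v y (D i))|
        ≤ ∑ y : Fin m → Kv v, |l v y / q v * chF v (val v y (D i))| :=
          Finset.abs_sum_le_sum_abs _ _
      _ ≤ ∑ _y : Fin m → Kv v, B := by
          refine Finset.sum_le_sum fun y _ => ?_
          rw [abs_mul]
          calc |l v y / q v| * |chF v (val v y (D i))| ≤ B * 1 :=
                mul_le_mul (hc v y) (chF_abs v _) (abs_nonneg _) hB0
            _ = B := mul_one B
      _ = B * (q v : ℝ) ^ m := by
          rw [Finset.sum_const, Finset.card_univ, nsmul_eq_mul, card_pts, mul_comm]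
  · intro i v hv
    simp only [Set.mem_union, Set.mem_ofPred_eq, Set.mem_iUnion, not_or, not_exists] at hv
    obtain ⟨⟨hvR, hv2⟩, hvF⟩ := hv
    have h1 := hb i v hvR
    have h2 : |BB' i v - (r * q v +
        (∑ᶠ y : Fin m → Kv v, l v y / q v * chF v (val v y (D i))) / (q v : ℝ) ^ m * q v)| ≤
        r * CF i := by
      have := finite_Kv v
      let _ : Fintype (Kv v) := Fintype.ofFinite _
      have hqm : (0 : ℝ) < (q v : ℝ) ^ m := pow_pos (hq0 v) m
      have hq := hq0 v
      have hbd := hbad i v (hvF i)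
      set g : (Fin m → Kv v) → ℝ := fun y =>
        (if GoodK (D i) a v y then
          T v (val v y (D i)) (fun i => val v y (a i)) else 0) -
        (r * q v + l v y * chF v (val v y (D i))) with hg
      have hs := sum_bound g (fun y => val v y (P i) = 0) 0 (r * q v) le_rfl ?_ ?_
      · have h3 : BB' i v - (r * q v +
            (∑ᶠ y : Fin m → Kv v, l v y / q v * chF v (val v y (D i))) / (q v : ℝ) ^ m * q v) =
            (∑ y, g y) / (q v : ℝ) ^ m := by
          have h4 : ∑ y : Fin m → Kv v, l v y / q v * chF v (val v y (D i)) =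
              (∑ y : Fin m → Kv v, l v y * chF v (val v y (D i))) / q v := by
            rw [Finset.sum_div]
            refine Finset.sum_congr rfl fun y _ => ?_
            ring
          simp only [hBB']
          rw [finsum_eq_sum_of_fintype, finsum_eq_sum_of_fintype, hg, Finset.sum_sub_distrib,
            Finset.sum_add_distrib, Finset.sum_const, Finset.card_univ, nsmul_eq_mul, card_pts, h4]
          field_simp
        rw [h3, abs_div, abs_of_pos hqm, div_le_iff₀ hqm]
        calc |∑ y, g y| ≤ _ := hs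
          _ = r * ((Nat.card {y : Fin m → Kv v // val v y (P i) = 0} : ℝ) * q v) := by ring
          _ ≤ r * (CF i * (q v : ℝ) ^ m) := mul_le_mul_of_nonneg_left hbd hr0
          _ = r * CF i * (q v : ℝ) ^ m := by ring
      · intro y hy
        have hG := hgood i v y hy
        rw [hg]
        simp only
        rw [if_pos hG, hl2 v y hv2 hG.2 _ hG.1]
        have : r * (q v : ℝ) + chF v (val v y (D i)) * l v y -
          (r * q v + l v y * chF v (val v y (D i))) = 0 := by ring
        rw [this, abs_zero]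
      · intro y _
        rw [hg]
        simp only
        by_cases hG : GoodK (D i) a v y
        · rw [if_pos hG, hl2 v y hv2 hG.2 _ hG.1]
          have : r * (q v : ℝ) + chF v (val v y (D i)) * l v y -
            (r * q v + l v y * chF v (val v y (D i))) = 0 := by ring
          rw [this, abs_zero]
          positivity
        · rw [if_neg hG]
          have h0 : l v y * chF v (val v y (D i)) = 0 := by
            by_cases hd : val v y (D i) = 0
            · rw [hd, chF, if_pos rfl, mul_zero]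
            · rw [hl3 v y fun hinj => hG ⟨hd, hinj⟩, zero_mul]
          rw [h0, add_zero, zero_sub, abs_neg, abs_of_nonneg (by positivity)]
    have h3 : r * CF i ≤ r * ∑ i, CF i :=
      mul_le_mul_of_nonneg_left (Finset.single_le_sum (fun j _ => hCF j) (Finset.mem_univ i)) hr0
    calc |b i v - (r * q v +
        (∑ᶠ y : Fin m → Kv v, l v y / q v * chF v (val v y (D i))) / (q v : ℝ) ^ m * q v)|
        = |(b i v - BB' i v) + (BB' i v - (r * q v +
        (∑ᶠ y : Fin m → Kv v, l v y / q v * chF v (val v y (D i))) / (q v : ℝ) ^ m * q v))| := by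
          congr 1
          ring
      _ ≤ |b i v - BB' i v| + |BB' i v - (r * q v +
        (∑ᶠ y : Fin m → Kv v, l v y / q v * chF v (val v y (D i))) / (q v : ℝ) ^ m * q v)| :=
          abs_add_le _ _
      _ ≤ C + r * ∑ i, CF i := by linarith

theorem hK7W (hA7 : StA7) (hF1 : StF1) (hK5 : StK5) (hK6 : StK6) : StK7W := by
  intro W hW k _ _ m n a hn hn1 ha ι _ D hD hns C R b hR hb
  exact hK7G hA7 hF1 hK5 hK6 k m n (1 + n.choose 2) (W n) (by positivity)
    (fun v d α => (ptsK v d α : ℝ) - 1 - (q v : ℝ) ^ 2)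
    (fun v hv α hα => hW k v hv n α hn hn1 hα) a ha ι D hD hns C R b hR hb

theorem hK7 (hA7 : StA7) (hF1 : StF1) (hK4 : StK4) (hK5 : StK5) (hK6 : StK6) : StK7 :=
  hK7W hA7 hF1 hK5 hK6 _ hK4

end

end Pool.Agent.Helper47.TK
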