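import Pool.Agent.Helper47.TK.M_Ex
import Pool.Agent.Helper47.TK.M_K5
import Pool.Agent.Helper47.TK.M_K6
import Pool.Agent.Helper47.TK.M_K7

/-!
# Projects TK and TS: sharp constants and the main theorems
-/

set_option autoImplicit false

namespace Pool.Agent.Helper47.TK

open NumberField IsDedekindDomain Polynomial Filter Topology
open Pool.Agent.Helper95.TT Pool.Agent.Helper24.TF Pool.Agent.Helper99.TK Pool.Agent.Helper95.WS
open scoped Classical

noncomputable section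


theorem hBdK (hK1 : StK1) (hW12 : StW12) : BdK (fun n => ((n : ℝ) - 2) * (n - 3) / 2) := by
  intro k _ _ v h2v n α hne hn hα
  have hmax : v.asIdeal.IsMaximal := v.isMaximal
  let _ : Field (Kv v) := Ideal.Quotient.field v.asIdeal
  have : Finite (Kv v) := Ideal.finiteQuotientOfFreeOfNeBot _ v.ne_bot
  let _ : Fintype (Kv v) := Fintype.ofFinite _
  have hcard : (Fintype.card (Kv v)) = q v := by
    unfold q
    rw [Ideal.absNorm_apply, Submodule.cardQuot_apply, Nat.card_eq_fintype_card]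
  have h2 : (2 : Kv v) ≠ 0 := by
    intro h
    apply h2v
    have h3 : (Ideal.Quotient.mk v.asIdeal) 2 = 0 := by rw [← h]; rfl
    exact Ideal.Quotient.eq_zero_iff_mem.1 h3
  obtain ⟨ν, hν⟩ := FiniteField.exists_nonsquare (ringChar_ne_two h2)
  have hb := (sharp_sh hW12 (Kv v) ν h2 hν n α hne hn hα).1
  have he := exactD hK1 h2 ν hν n α
  rw [hcard] at hb he
  refine ⟨_, hb, fun d hd => ?_⟩
  have h5 := he d
  have hqc : qc d = chF v d := rfl
  rw [hqc] at h5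
  unfold ptsK
  push_cast
  rw [h5]
  ring

theorem hBdS (hK1 : StK1) (hW12 : StW12) : BdS (fun n => n + ((n : ℝ) - 2) * (n - 1) / 2) := by
  intro k _ _ v h2v n α hne hn hα
  have hmax : v.asIdeal.IsMaximal := v.isMaximal
  let _ : Field (Kv v) := Ideal.Quotient.field v.asIdeal
  have : Finite (Kv v) := Ideal.finiteQuotientOfFreeOfNeBot _ v.ne_bot
  let _ : Fintype (Kv v) := Fintype.ofFinite _
  have hcard : (Fintype.card (Kv v)) = q v := by
    unfold q
    rw [Ideal.absNorm_apply, Submodule.cardQuot_apply, Nat.card_eq_fintype_card]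
  have h2 : (2 : Kv v) ≠ 0 := by
    intro h
    apply h2v
    have h3 : (Ideal.Quotient.mk v.asIdeal) 2 = 0 := by rw [← h]; rfl
    exact Ideal.Quotient.eq_zero_iff_mem.1 h3
  obtain ⟨ν, hν⟩ := FiniteField.exists_nonsquare (ringChar_ne_two h2)
  have hb := (sharp_sh hW12 (Kv v) ν h2 hν n α hne hn hα).2
  have he := exactE hK1 h2 ν hν n α
  rw [hcard] at hb he
  have hm1 : |qc (-1 : Kv v)| ≤ 1 := by
    unfold qc
    split_ifs <;> simp
  refine ⟨qc (-1 : Kv v) * (n * q v) + ((∑ x : Kv v, qc (∏ i, (x - α i)) + 1) ^ 2 -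
        (∑ a : Kv v, ∑ b : Kv v, qc (∏ i, ((a - α i) ^ 2 - ν * b ^ 2)) + 1)) / 2, ?_, fun d hd => ?_⟩
  · refine (abs_add_le _ _).trans ?_
    have h1 : |qc (-1 : Kv v) * (n * q v)| ≤ n * q v := by
      rw [abs_mul, abs_of_nonneg (by positivity : (0 : ℝ) ≤ n * q v)]
      exact mul_le_of_le_one_left (by positivity) hm1
    calc _ ≤ (n : ℝ) * q v + ((n - 2) * (n - 1) / 2 : ℝ) * q v := add_le_add h1 hb
      _ = _ := by ring
  · have h5 := he d
    have hqc : qc d = chF v d := rfl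
    have h6 : ((if IsSquare (-d) then 3 * q v else q v : ℕ) : ℝ) = (2 + qc (-1 : Kv v) * qc d) * q v := by
      have h7 : qc (-1 : Kv v) * qc d = qc (-d) := by
        rw [← qc_mul, neg_one_mul]
      rw [h7]
      unfold qc
      rw [if_neg (neg_ne_zero.2 hd)]
      split_ifs
      · push_cast
        ring
      · push_cast
        ring
    unfold ptsS
    push_cast
    push_cast at h6
    rw [h5, h6, ← hqc]
    ring

/-- main theorem of TK, sharp constant -/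
theorem mainK (hK1 : StK1) (hW12 : StW12) (hA7 : StA7) (hF1 : StF1) (hK5 : StK5) (hK6 : StK6)
    (k : Type) [Field k] [NumberField k] (m n : ℕ) (a : Fin n → Py k m) (hn : Even n) (hn1 : 1 ≤ n)
    (ha : Function.Injective a) (ι : Type) [Fintype ι] (D : ι → Py k m) (hD : ∀ i, D i ≠ 0)
    (hns : ∀ i j, i ≠ j → ¬ IsSquare (algebraMap (Py k m) (Ky k m) (D i * D j)))
    (C : ℝ) (R : Set (Pr k)) (b : ι → Pr k → ℝ) (hR : R.Finite)
    (hb : ∀ i, ∀ v, v ∉ R → |b i v - BK (D i) a v| ≤ C) :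
    (∀ i, ∀ s : ℝ, 2 < s → Summable (fun v : Pr k => b i v * Real.log (q v) * (q v : ℝ) ^ (-s))) ∧
    ∀ ε > 0, ∀ᶠ s : ℝ in 𝓝[>] 2,
      ∑ i, ((s - 2) * (∑' v : Pr k, b i v * Real.log (q v) * (q v : ℝ) ^ (-s)) -
        (1 + n.choose 2)) ^ 2 ≤ (((n : ℝ) - 2) * (n - 3) / 2) ^ 2 + ε :=
  hK7W hA7 hF1 hK5 hK6 _ (hBdK hK1 hW12) k m n a hn hn1 ha ι D hD hns C R b hR hb

theorem hS7W (hA7 : StA7) (hF1 : StF1) (hK5 : StK5) (hK6 : StK6) : StS7W := by
  intro W hW k _ _ m n a hn hn1 ha ι _ D hD hns C R b hR hb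
  exact hK7G hA7 hF1 hK5 hK6 k m n (1 + n.choose 2 + 2 * n) (W n) (by positivity)
    (fun v d α => (ptsS v d α : ℝ) - 1 - (q v : ℝ) ^ 2)
    (fun v hv α hα => hW k v hv n α hn hn1 hα) a ha ι D hD hns C R b hR hb

/-- main theorem of TS, sharp constant -/
theorem mainS (hK1 : StK1) (hW12 : StW12) (hA7 : StA7) (hF1 : StF1) (hK5 : StK5) (hK6 : StK6)
    (k : Type) [Field k] [NumberField k] (m n : ℕ) (a : Fin n → Py k m) (hn : Even n) (hn1 : 1 ≤ n)
    (ha : Function.Injective a) (ι : Type) [Fintype ι] (D : ι → Py k m) (hD : ∀ i, D i ≠ 0)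
    (hns : ∀ i j, i ≠ j → ¬ IsSquare (algebraMap (Py k m) (Ky k m) (D i * D j)))
    (C : ℝ) (R : Set (Pr k)) (b : ι → Pr k → ℝ) (hR : R.Finite)
    (hb : ∀ i, ∀ v, v ∉ R → |b i v - BS (D i) a v| ≤ C) :
    (∀ i, ∀ s : ℝ, 2 < s → Summable (fun v : Pr k => b i v * Real.log (q v) * (q v : ℝ) ^ (-s))) ∧
    ∀ ε > 0, ∀ᶠ s : ℝ in 𝓝[>] 2,
      ∑ i, ((s - 2) * (∑' v : Pr k, b i v * Real.log (q v) * (q v : ℝ) ^ (-s)) -
        (1 + n.choose 2 + 2 * n)) ^ 2 ≤ (n + ((n : ℝ) - 2) * (n - 1) / 2) ^ 2 + ε :=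
  hS7W hA7 hF1 hK5 hK6 _ (hBdS hK1 hW12) k m n a hn hn1 ha ι D hD hns C R b hR hb

end

end Pool.Agent.Helper47.TK
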