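import Pool.Agent.Helper47.TK.M_Cor
import Pool.Agent.Helper79.TT.M_A10

/-!
# Projects TK and TS: the complete theorems, from the list of modules
-/

set_option autoImplicit false

namespace Pool.Agent.Helper47.TK

open NumberField IsDedekindDomain Polynomial Filter Topology
open Pool.Agent.Helper95.TT Pool.Agent.Helper24.TF
open scoped Classical

noncomputable section

/-- the four conclusions, for numbers `b i v`, an integer `r` and a bound `W` -/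
theorem four {k : Type} [Field k] [NumberField k] (ι : Type) [Fintype ι] (b : ι → Pr k → ℝ) (r : ℕ)
    (W : ℝ)
    (h1 : ∀ i, ∀ s : ℝ, 2 < s →
      Summable (fun v : Pr k => b i v * Real.log (q v) * (q v : ℝ) ^ (-s)))
    (h2 : ∀ ε > 0, ∀ᶠ s : ℝ in 𝓝[>] 2,
      ∑ i, ((s - 2) * (∑' v : Pr k, b i v * Real.log (q v) * (q v : ℝ) ^ (-s)) - r) ^ 2 ≤
        W ^ 2 + ε) :
    (∀ ρ : ι → ℝ, (∀ i, Tendsto (fun s : ℝ => (s - 2) *
        (∑' v : Pr k, b i v * Real.log (q v) * (q v : ℝ) ^ (-s))) (𝓝[>] 2) (𝓝 (ρ i))) →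
      ∑ i, (ρ i - r) ^ 2 ≤ W ^ 2) ∧
    (∀ G : ι → ℂ → ℂ, (∀ i, MeromorphicAt (G i) 2) →
      (∀ i, ∀ᶠ s : ℝ in 𝓝[>] 2,
        G i s = ((Real.exp (∑' v : Pr k, b i v * (q v : ℝ) ^ (-s)) : ℝ) : ℂ)) →
      ∃ N : ι → ℤ, (∀ i, Tendsto (fun s : ℝ => (s - 2) *
          (∑' v : Pr k, b i v * Real.log (q v) * (q v : ℝ) ^ (-s))) (𝓝[>] 2) (𝓝 (N i : ℝ))) ∧
        ((Finset.univ.filter fun i => N i ≠ r).card : ℝ) ≤ W ^ 2) := by
  have hlim := cor_limit (fun i s => (s - 2) *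
    (∑' v : Pr k, b i v * Real.log (q v) * (q v : ℝ) ^ (-s))) (r : ℝ) W h2
  refine ⟨hlim, fun G hG hGe => ?_⟩
  choose N hN using fun i => Pool.Agent.Helper79.TT.hA10 (Pr k) (b i) (fun v => (q v : ℝ))
    (fun v => q_two_tf v) (h1 i) (G i) (hG i) (hGe i)
  refine ⟨N, hN, ?_⟩
  have h3 := hlim (fun i => (N i : ℝ)) hN
  exact cor_int N (r : ℤ) W (by exact_mod_cast h3)

end

end Pool.Agent.Helper47.TK
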