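import Pool.Agent.Helper47.TK.M_Main

/-!
# Projects TK and TS: infinite families, limits along filters, exact residues
-/

set_option autoImplicit false

namespace Pool.Agent.Helper47.TK

open NumberField IsDedekindDomain Polynomial Filter Topology
open Pool.Agent.Helper95.TT Pool.Agent.Helper24.TF
open scoped Classical

noncomputable section

/-- the function `F` -/
def FF {k : Type} [Field k] [NumberField k] (b : Pr k → ℝ) (s : ℝ) : ℝ :=
  ∑' v : Pr k, b v * Real.log (q v) * (q v : ℝ) ^ (-s)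

/-- `F` has residue `r` at `s = 2` (along the real axis) -/
def HasResF {k : Type} [Field k] [NumberField k] (b : Pr k → ℝ) (r : ℝ) : Prop :=
  Tendsto (fun s : ℝ => (s - 2) * FF b s) (𝓝[>] 2) (𝓝 r)

/-- the exponential has a meromorphic continuation to a neighbourhood of `2` -/
def ContF {k : Type} [Field k] [NumberField k] (b : Pr k → ℝ) : Prop :=
  ∃ G : ℂ → ℂ, MeromorphicAt G 2 ∧
    ∀ᶠ s : ℝ in 𝓝[>] 2, G s = ((Real.exp (∑' v : Pr k, b v * (q v : ℝ) ^ (-s)) : ℝ) : ℂ)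

/-- from the case of a finite index type to finite subsets of an arbitrary index type -/
theorem fam {k : Type} [Field k] [NumberField k] {ι : Type} (b β : ι → Pr k → ℝ) (r W : ℝ)
    (hb : ∀ i, ∃ C : ℝ, ∀ᶠ v : Pr k in cofinite, |b i v - β i v| ≤ C)
    (H : ∀ (S : Finset ι) (C : ℝ) (R : Set (Pr k)), R.Finite →
      (∀ i : S, ∀ v, v ∉ R → |b i v - β i v| ≤ C) →
      (∀ i : S, ∀ s : ℝ, 2 < s →
        Summable (fun v : Pr k => b i v * Real.log (q v) * (q v : ℝ) ^ (-s))) ∧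
      ∀ ε > 0, ∀ᶠ s : ℝ in 𝓝[>] 2, ∑ i : S, ((s - 2) * FF (b i) s - r) ^ 2 ≤ W ^ 2 + ε) :
    (∀ i, ∀ s : ℝ, 2 < s →
      Summable (fun v : Pr k => b i v * Real.log (q v) * (q v : ℝ) ^ (-s))) ∧
    ∀ (S : Finset ι), ∀ ε > 0, ∀ᶠ s : ℝ in 𝓝[>] 2,
      ∑ i ∈ S, ((s - 2) * FF (b i) s - r) ^ 2 ≤ W ^ 2 + ε := by
  choose C hC using hb
  have key : ∀ S : Finset ι, (∀ i : S, ∀ s : ℝ, 2 < s →
        Summable (fun v : Pr k => b i v * Real.log (q v) * (q v : ℝ) ^ (-s))) ∧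
      ∀ ε > 0, ∀ᶠ s : ℝ in 𝓝[>] 2, ∑ i : S, ((s - 2) * FF (b i) s - r) ^ 2 ≤ W ^ 2 + ε := by
    intro S
    have hR : (⋃ i ∈ S, {v : Pr k | ¬ |b i v - β i v| ≤ C i}).Finite :=
      Set.Finite.biUnion S.finite_toSet fun i _ => hC i
    refine H S (∑ i ∈ S, |C i|) _ hR fun i v hv => ?_
    have h1 : |b i v - β i v| ≤ C i := by
      by_contra hc
      exact hv (Set.mem_biUnion (s := (S : Set ι)) i.2 hc)
    refine h1.trans ((le_abs_self _).trans ?_)
    exact Finset.single_le_sum (f := fun i => |C i|) (fun _ _ => abs_nonneg _) i.2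
  refine ⟨fun i s hs => (key {i}).1 ⟨i, Finset.mem_singleton_self i⟩ s hs, fun S ε hε => ?_⟩
  filter_upwards [(key S).2 ε hε] with s hs
  rw [← Finset.sum_coe_sort S fun i => ((s - 2) * FF (b i) s - r) ^ 2]
  exact hs

/-- from the inequality for finite sets to limits along filters and to the exact residues -/
theorem final4 {k : Type} [Field k] [NumberField k] {ι : Type} (b : ι → Pr k → ℝ) (r : ℕ) (W : ℝ)
    (h1 : ∀ i, ∀ s : ℝ, 2 < s →
      Summable (fun v : Pr k => b i v * Real.log (q v) * (q v : ℝ) ^ (-s)))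
    (h2 : ∀ (S : Finset ι), ∀ ε > 0, ∀ᶠ s : ℝ in 𝓝[>] 2,
      ∑ i ∈ S, ((s - 2) * FF (b i) s - r) ^ 2 ≤ W ^ 2 + ε) :
    (∀ (l : Filter ℝ), l.NeBot → l ≤ 𝓝[>] 2 → ∀ (S : Finset ι) (ρ : ι → ℝ),
      (∀ i ∈ S, Tendsto (fun s : ℝ => (s - 2) * FF (b i) s) l (𝓝 (ρ i))) →
      ∑ i ∈ S, (ρ i - r) ^ 2 ≤ W ^ 2) ∧
    ({i | ContF (b i) ∧ ¬ HasResF (b i) r}.Finite ∧
      ({i | ContF (b i) ∧ ¬ HasResF (b i) r}.ncard : ℝ) ≤ W ^ 2) := by
  have h3 : ∀ (l : Filter ℝ), l.NeBot → l ≤ 𝓝[>] 2 → ∀ (S : Finset ι) (ρ : ι → ℝ),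
      (∀ i ∈ S, Tendsto (fun s : ℝ => (s - 2) * FF (b i) s) l (𝓝 (ρ i))) →
      ∑ i ∈ S, (ρ i - r) ^ 2 ≤ W ^ 2 := by
    intro l hl hl2 S ρ hr
    have ht : Tendsto (fun s : ℝ => ∑ i ∈ S, ((s - 2) * FF (b i) s - r) ^ 2) l
        (𝓝 (∑ i ∈ S, (ρ i - r) ^ 2)) :=
      tendsto_finsetSum _ fun i hi => ((hr i hi).sub_const _).pow 2
    refine le_of_forall_pos_le_add fun ε hε => ?_
    exact le_of_tendsto ht (hl2 (h2 S ε hε))
  refine ⟨h3, ?_⟩
  -- residues of functions that continue are integers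
  have hint : ∀ i, ContF (b i) → ∃ n : ℤ, HasResF (b i) n := by
    rintro i ⟨G, hG, hGs⟩
    exact Pool.Agent.Helper79.TT.hA10 (Pr k) (b i) (fun v => (q v : ℝ))
      (fun v => q_two_tf v) (h1 i) G hG hGs
  set T : Set ι := {i | ContF (b i) ∧ ¬ HasResF (b i) r} with hT
  have hcard : ∀ S : Finset ι, (S : Set ι) ⊆ T → (S.card : ℝ) ≤ W ^ 2 := by
    intro S hS
    have h4 : ∀ i ∈ S, ∃ n : ℤ, HasResF (b i) n := fun i hi => hint i (hS hi).1
    choose! n hn using h4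
    have h5 := h3 (𝓝[>] 2) inferInstance le_rfl S (fun i => (n i : ℝ)) hn
    refine le_trans ?_ h5
    have h6 : ∀ i ∈ S, (1 : ℝ) ≤ ((n i : ℝ) - r) ^ 2 := by
      intro i hi
      have h7 : n i ≠ r := by
        intro h
        apply (hS hi).2
        have := hn i hi
        rw [h] at this
        exact_mod_cast this
      have h8 : (1 : ℤ) ≤ (n i - r) ^ 2 := by
        have h9 : n i - r ≠ 0 := sub_ne_zero.2 h7
        have h10 : 0 < (n i - r) ^ 2 := by positivity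
        simpa using Int.add_one_le_of_lt h10
      exact_mod_cast h8
    calc (S.card : ℝ) = ∑ i ∈ S, (1 : ℝ) := by simp
      _ ≤ _ := Finset.sum_le_sum h6
  have hfin : T.Finite := by
    by_contra hinf
    obtain ⟨S, hS, hc⟩ := Set.Infinite.exists_subset_card_eq hinf (⌊W ^ 2⌋₊ + 1)
    have h1 := hcard S hS
    rw [hc] at h1
    push_cast at h1
    linarith [Nat.lt_floor_add_one (W ^ 2)]
  refine ⟨hfin, ?_⟩
  have h1 := hcard hfin.toFinset (by simp)
  rwa [← Set.ncard_eq_toFinset_card T hfin] at h1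

end

end Pool.Agent.Helper47.TK
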