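import Pool.Agent.Helper47.TK.StK

/-!
# Project TS (MP_6090f9_nt): quadratic twists of fibrations in K3 surfaces of Picard number 19

THEOREM.  `k` a number field, `m ≥ 0`, `K = k(y_1..y_m)`, `n ≥ 2` even, `a_1, .., a_n ∈ 𝓞 k[y_1..y_m]` pairwise different.  For
`D ∈ 𝓞 k[y_1..y_m]`, `D ≠ 0`, let `X_D → A^m` be the family whose fibre over `y` is the minimal resolution of the double plane
`w² = D(y) (s² - 4 p z) ∏_i (a_i(y)² z - a_i(y) s + p)` branched along the conic `s² = 4 p z` and `n` of its tangent lines.  For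
`n = 4` the fibres are K3 surfaces of Picard number at least `19`, with transcendental part `Sym² H¹(E) ⊗ χ_D`, where `E` is
the curve `w² = ∏ (x - a_i)` of genus 1.  `BS D a v` is the average over the good fibres over the residue field at `v` of the
trace of Frobenius on `H²`.  For every finite set `S` of `D`'s, pairwise different modulo squares of `K`, and every `ε > 0`:
`∑_(D ∈ S) ((s-2) F_D(s) - (1 + n(n-1)/2 + 2n))² ≤ B² + ε` for all `s > 2` close to `2`.

The singularities of the double plane are nodes over the `n(n-1)/2` points where two lines meet, and singularities of type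
`A_3` over the `n` points where a line touches the conic.  At the point `s = 2α, p = α²` put `l = α² - α s + p`, `σ = s - 2α`; then
`s² - 4 p = σ² - 4 l`, the other lines have the values `(α_j - α)²`, so the local equation is
`w² = D l (σ² - 4 l) u`, `u` a nonzero square at the point, i.e. `w² + D u (2 l - σ²/4)² = D u (σ²/4)²`: the exceptional curve is a
chain of three smooth conics, all defined over the residue field if `-D` is a square there (`3q + 1` points), the outer two
conjugate otherwise (`q + 1` points).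
-/

set_option autoImplicit false

namespace Pool.Agent.Helper47.TK

open NumberField IsDedekindDomain Polynomial Filter Topology
open Pool.Agent.Helper95.TT Pool.Agent.Helper24.TF
open scoped Classical

noncomputable section

/-- number of points over the finite field `K` of the double plane `w² = d (s² - 4 p z) ∏_i (α_i² z - α_i s + p)` in the
weighted projective space with the coordinates `s, p, z` of weight `1` and `w` of weight `(n+2)/2` (`n` even): the points with
`z = 1`, the points with `z = 0`, `s = 1` (`p` is the first coordinate), and the single point with `z = s = 0`, `p = 1` (`w = 0`) -/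
def ptsE {K : Type} [CommRing K] {n : ℕ} (d : K) (α : Fin n → K) : ℕ :=
  Nat.card {z : K × K × K // z.2.2 ^ 2 = d * ((z.1 ^ 2 - 4 * z.2.1) * ∏ i, (α i ^ 2 - α i * z.1 + z.2.1))} +
  Nat.card {z : K × K // z.2 ^ 2 = d * ∏ i, (z.1 - α i)} + 1

variable {k : Type} [Field k] [NumberField k] {m n : ℕ}

/-- number of points over the residue field at `v` of the minimal resolution of this double plane: each of the
`n(n-1)/2` nodes is replaced by a smooth conic (`q + 1` points), each of the `n` points of type `A_3` by a chain of three smooth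
conics (`3q + 1` points if `-d` is a square, `q + 1` points otherwise) -/
def ptsS (v : Pr k) (d : Kv v) (α : Fin n → Kv v) : ℕ :=
  ptsE d α + n.choose 2 * q v + n * (if IsSquare (-d) then 3 * q v else q v)

/-- `q_v^(-m)` times the sum over the good fibres of `X_D` over the residue field at `v` of the trace of Frobenius on `H²`
(the fibres are simply connected surfaces, so the trace is the number of points minus `1 + q²`) -/
def BS (D : Py k m) (a : Fin n → Py k m) (v : Pr k) : ℝ :=
  (∑ᶠ y : Fin m → Kv v, if GoodK D a v y then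
    ((ptsS v (val v y D) (fun i => val v y (a i)) : ℝ) - 1 - (q v : ℝ) ^ 2) else 0) / (q v : ℝ) ^ m

/-- **S3** (number of points of the double plane).  Hypotheses: StK1 StK2.
PROOF.  As K3, with `g s p = qc ((s² - 4p) ∏ (α_i² - α_i s + p))`: `(u+w)² - 4uw = (u-w)²` and `(2a)² - 4(a² - ν b²) = 4 ν b²`, so
K1 gives `2 ∑ g = (A² - ∑_u qc(h u)²) - (A' - ∑_a qc(h a)²) = A² - A'`.  The three numbers in `ptsE` are
`q² + qc d (A² - A')/2`, `q + qc d A`, `1`.  So `l = (A² - A')/2 + A = ((A+1)² - (A'+1))/2`,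
`|l| ≤ ((8n+12)² q + (8n+11) q + 1)/2 ≤ (8n+12)(8n+13) q/2`. -/
def StS3 : Prop := ∀ (K : Type) [Field K] [Fintype K], (2 : K) ≠ 0 → ∀ (n : ℕ) (α : Fin n → K), 1 ≤ n →
  Function.Injective α → |∑ x : K, qc (∏ i, (x - α i)) + 1| ≤ (8 * n + 12) * √(Fintype.card K : ℝ) →
  ∃ l : ℝ, |l| ≤ (8 * n + 12) * (8 * n + 13) / 2 * (Fintype.card K : ℝ) ∧ ∀ d : K, d ≠ 0 →
    (ptsE d α : ℝ) = (Fintype.card K : ℝ) ^ 2 + (Fintype.card K : ℝ) + 1 + qc d * l

/-- **S4** (the trace on `H²` of a fibre).  Hypotheses: StF3 StS3.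
PROOF.  As K4; `IsSquare (-d)` iff `χ(-d) = χ(-1) χ(d) = 1`, so the last term of `ptsS` is `n (2 + χ(-1) χ(d)) q`. -/
def StS4 : Prop := ∀ (k : Type) [Field k] [NumberField k] (v : Pr k), (2 : 𝓞 k) ∉ v.asIdeal →
  ∀ (n : ℕ) (α : Fin n → Kv v), Even n → 1 ≤ n → Function.Injective α →
  ∃ l : ℝ, |l| ≤ (n + (8 * n + 12) * (8 * n + 13) / 2) * q v ∧ ∀ d : Kv v, d ≠ 0 →
    (ptsS v d α : ℝ) - 1 - (q v : ℝ) ^ 2 = (1 + n.choose 2 + 2 * n) * q v + chF v d * l

/-- abstract form of S4 -/
def BdS (W : ℕ → ℝ) : Prop := ∀ (k : Type) [Field k] [NumberField k] (v : Pr k), (2 : 𝓞 k) ∉ v.asIdeal →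
  ∀ (n : ℕ) (α : Fin n → Kv v), Even n → 1 ≤ n → Function.Injective α →
  ∃ l : ℝ, |l| ≤ W n * q v ∧ ∀ d : Kv v, d ≠ 0 →
    (ptsS v d α : ℝ) - 1 - (q v : ℝ) ^ 2 = (1 + n.choose 2 + 2 * n) * q v + chF v d * l

/-- **S7W** (main theorem).  Hypotheses: StA7 StF1 StK5 StK6 (theorem `hK7G`). -/
def StS7W : Prop := ∀ (W : ℕ → ℝ), BdS W →
  ∀ (k : Type) [Field k] [NumberField k] (m n : ℕ) (a : Fin n → Py k m), Even n → 1 ≤ n →
  Function.Injective a → ∀ (ι : Type) [Fintype ι] (D : ι → Py k m), (∀ i, D i ≠ 0) →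
  (∀ i j, i ≠ j → ¬ IsSquare (algebraMap (Py k m) (Ky k m) (D i * D j))) →
  ∀ (C : ℝ) (R : Set (Pr k)) (b : ι → Pr k → ℝ), R.Finite →
  (∀ i, ∀ v, v ∉ R → |b i v - BS (D i) a v| ≤ C) →
  (∀ i, ∀ s : ℝ, 2 < s → Summable (fun v : Pr k => b i v * Real.log (q v) * (q v : ℝ) ^ (-s))) ∧
  ∀ ε > 0, ∀ᶠ s : ℝ in 𝓝[>] 2,
    ∑ i, ((s - 2) * (∑' v : Pr k, b i v * Real.log (q v) * (q v : ℝ) ^ (-s)) -
      (1 + n.choose 2 + 2 * n)) ^ 2 ≤ W n ^ 2 + ε

end

end Pool.Agent.Helper47.TK
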